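import Pool.Agent.Y261.CH.Blv1

/-!
Project CH, the task BLV (helper261).
-/

set_option autoImplicit false

namespace Pool.Agent.Y261.CH

open Finset Filter H343E Pool.Agent.H398R2.BV Pool.Agent.TH423.SH.PSUa Pool.Agent.Helper112
  Pool.Agent.Y843.CH

/-- the bound for one `g` -/
lemma pergb {x L E : ℝ} {m₀ K V C U' M₁ Y Q F0 : ℕ} (om : ℝ) (hx1 : 1 ≤ x) (hL1 : 1 ≤ L)
    (hC : C = K + V + 2) (hU : U' = C + (K + V + 1))
    (hwM : x ^ (1 / 9 : ℝ) ≤ M₁) (hMx : (M₁ : ℝ) ≤ x ^ (2 / 5 : ℝ)) (hMY : (M₁ : ℝ) * Y ≤ 5 * x)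
    (hQ : (Q : ℝ) ≤ m₀ * x ^ (4995 / 10000 : ℝ)) (hlQ : Real.log Q ≤ L)
    (hF1 : L ^ C ≤ F0) (hF2 : (F0 : ℝ) ≤ 2 * L ^ C) (hE0 : 0 ≤ E)
    (hE : E ≤ M₁ * 9 ^ U' / L ^ U') (hom0 : 0 ≤ om) (hom : om ≤ 2 * L) :
    F0 * (2 * E + om) * Y +
      12 * (1 + Real.log Q) * (Real.sqrt (M₁ * Y) / F0 + (Real.sqrt M₁ + Real.sqrt Y) + Q) *
        Real.sqrt (M₁ * Y) ≤
    (20 * 9 ^ U' + 120) * x / L ^ (K + V + 1) +
      (20 + 72 * (4 + m₀)) * L ^ (C + 1) * x ^ (9995 / 10000 : ℝ) := by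
  have hx0 : 0 < x := by linarith
  have hL0 : 0 < L := by linarith
  obtain ⟨w, hw⟩ : ∃ w : ℝ, w = x ^ (1 / 9 : ℝ) := ⟨_, rfl⟩
  obtain ⟨v, hv⟩ : ∃ v : ℝ, v = x ^ (8 / 9 : ℝ) := ⟨_, rfl⟩
  obtain ⟨Z, hZ⟩ : ∃ Z : ℝ, Z = x ^ (9995 / 10000 : ℝ) := ⟨_, rfl⟩
  obtain ⟨t, ht⟩ : ∃ t : ℝ, t = x ^ (4995 / 10000 : ℝ) := ⟨_, rfl⟩
  obtain ⟨q, hq⟩ : ∃ q : ℝ, q = x ^ (1 / 2 : ℝ) := ⟨_, rfl⟩
  have hw0 : 0 < w := by rw [hw]; positivity
  have hv0 : 0 < v := by rw [hv]; positivity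
  have hZ0 : 0 < Z := by rw [hZ]; positivity
  have ht0 : 0 < t := by rw [ht]; positivity
  have hq0 : 0 < q := by rw [hq]; positivity
  have hvw : v * w = x := by
    rw [hv, hw, ← Real.rpow_add hx0]
    norm_num
  have htq : t * q = Z := by
    rw [ht, hq, hZ, ← Real.rpow_add hx0]
    norm_num
  have hqq : q * q = x := by
    rw [hq, ← Real.rpow_add hx0]
    norm_num
  have htt : t * t = x ^ (999 / 1000 : ℝ) := by
    rw [ht, ← Real.rpow_add hx0]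
    norm_num
  have hvZ : v ≤ Z := by
    rw [hv, hZ]
    exact Real.rpow_le_rpow_of_exponent_le hx1 (by norm_num)
  have hvt : v ≤ t * t := by
    rw [hv, htt]
    exact Real.rpow_le_rpow_of_exponent_le hx1 (by norm_num)
  have hMt : (M₁ : ℝ) ≤ t * t := by
    rw [htt]
    exact hMx.trans (Real.rpow_le_rpow_of_exponent_le hx1 (by norm_num))
  rw [← hw] at hwM
  rw [← ht] at hQ
  rw [← hZ]
  have hY0 : (0 : ℝ) ≤ Y := Nat.cast_nonneg Y
  have hM0 : (0 : ℝ) ≤ M₁ := Nat.cast_nonneg _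
  have hQ0 : (0 : ℝ) ≤ Q := Nat.cast_nonneg _
  have hm0 : (0 : ℝ) ≤ m₀ := Nat.cast_nonneg _
  have hYv : (Y : ℝ) ≤ 5 * v := by
    have h1 : (Y : ℝ) * w ≤ 5 * v * w := by
      calc (Y : ℝ) * w ≤ Y * M₁ := mul_le_mul_of_nonneg_left hwM hY0
        _ = M₁ * Y := mul_comm _ _
        _ ≤ 5 * x := hMY
        _ = 5 * v * w := by rw [← hvw]; ring
    exact le_of_mul_le_mul_right h1 hw0
  have hYZ : (Y : ℝ) ≤ 5 * Z := by linarith
  have hF0 : (0 : ℝ) < F0 := lt_of_lt_of_le (by positivity) hF1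
  -- the first part
  have e1 : F0 * (2 * E) * Y ≤ 20 * 9 ^ U' * (x / L ^ (K + V + 1)) := by
    calc F0 * (2 * E) * Y ≤ (2 * L ^ C) * (2 * (M₁ * 9 ^ U' / L ^ U')) * Y := by gcongr
      _ = 4 * 9 ^ U' * ((M₁ * Y) / L ^ (K + V + 1)) := by
          rw [hU, pow_add L C]
          field_simp
          ring
      _ ≤ 4 * 9 ^ U' * ((5 * x) / L ^ (K + V + 1)) := by gcongr
      _ = _ := by ring
  have e2 : F0 * om * Y ≤ 20 * L ^ (C + 1) * Z := by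
    calc F0 * om * Y ≤ (2 * L ^ C) * (2 * L) * (5 * Z) := by gcongr
      _ = _ := by ring
  -- the second part
  obtain ⟨s, hs⟩ : ∃ s : ℝ, s = Real.sqrt (M₁ * Y) := ⟨_, rfl⟩
  have hs0 : 0 ≤ s := by rw [hs]; exact Real.sqrt_nonneg _
  have hss : s * s ≤ 5 * x := by
    rw [hs, Real.mul_self_sqrt (by positivity)]
    exact hMY
  have hsq : s ≤ 3 * q := by
    rw [hs]
    apply Real.sqrt_le_iff.2
    refine ⟨by positivity, ?_⟩
    have h1 : (3 * q) ^ 2 = 9 * (q * q) := by ring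
    rw [h1, hqq]
    linarith
  have hsM : Real.sqrt M₁ ≤ t := by
    apply Real.sqrt_le_iff.2
    refine ⟨ht0.le, ?_⟩
    rw [sq]
    exact hMt
  have hsY : Real.sqrt Y ≤ 3 * t := by
    apply Real.sqrt_le_iff.2
    refine ⟨by positivity, ?_⟩
    have h1 : (3 * t) ^ 2 = 9 * (t * t) := by ring
    rw [h1]
    linarith
  rw [← hs]
  have hsM0 := Real.sqrt_nonneg (M₁ : ℝ)
  have hsY0 := Real.sqrt_nonneg (Y : ℝ)
  have hlQ0 : 0 ≤ Real.log Q := Real.log_natCast_nonneg Q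
  have e3 : (s / F0 + (Real.sqrt M₁ + Real.sqrt Y) + Q) * s ≤
      5 * x / L ^ C + 3 * (4 + m₀) * Z := by
    have h1 : s / F0 * s ≤ 5 * x / L ^ C := by
      rw [div_mul_eq_mul_div]
      exact div_le_div₀ (by positivity) hss (by positivity) hF1
    have h2 : (Real.sqrt M₁ + Real.sqrt Y + Q) * s ≤ (t + 3 * t + m₀ * t) * (3 * q) := by
      gcongr
    have h3 : (t + 3 * t + m₀ * t) * (3 * q) = 3 * (4 + m₀) * Z := by
      rw [← htq]
      ring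
    rw [h3] at h2
    have h4 : (s / F0 + (Real.sqrt M₁ + Real.sqrt Y) + Q) * s =
        s / F0 * s + (Real.sqrt M₁ + Real.sqrt Y + Q) * s := by ring
    rw [h4]
    exact add_le_add h1 h2
  have e4 : 12 * (1 + Real.log Q) * (s / F0 + (Real.sqrt M₁ + Real.sqrt Y) + Q) * s ≤
      24 * L * (5 * x / L ^ C + 3 * (4 + m₀) * Z) := by
    rw [mul_assoc (12 * (1 + Real.log Q))]
    apply mul_le_mul _ e3 (by positivity) (by positivity)
    linarith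
  have e5 : 24 * L * (5 * x / L ^ C + 3 * (4 + m₀) * Z) =
      120 * (x / L ^ (K + V + 1)) + 72 * (4 + m₀) * L * Z := by
    have h1 : L ^ C = L ^ (K + V + 1) * L := by
      rw [hC, ← pow_succ]
    rw [h1]
    field_simp
    ring
  have e6 : L ≤ L ^ (C + 1) := by
    calc L = L ^ 1 := (pow_one L).symm
      _ ≤ L ^ (C + 1) := pow_le_pow_right₀ hL1 (by omega)
  have e7 : 72 * (4 + m₀) * L * Z ≤ 72 * (4 + m₀) * L ^ (C + 1) * Z := by gcongr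
  have e8 : F0 * (2 * E + om) * Y = F0 * (2 * E) * Y + F0 * om * Y := by ring
  have e9 : (20 * 9 ^ U' + 120) * x / L ^ (K + V + 1) = 20 * 9 ^ U' * (x / L ^ (K + V + 1)) +
      120 * (x / L ^ (K + V + 1)) := by ring
  have e10 : (20 + 72 * (4 + (m₀ : ℝ))) * L ^ (C + 1) * Z = 20 * L ^ (C + 1) * Z +
      72 * (4 + m₀) * L ^ (C + 1) * Z := by ring
  rw [e8, e9, e10]
  rw [e5] at e4
  linarith

lemma unw (m₀ V : ℕ) : ∃ X₀ : ℕ, ∀ X : ℕ, X₀ ≤ X → ∀ M₀ M₁ Y : ℕ,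
    (X : ℝ) ^ (1 / 9 : ℝ) ≤ M₀ → M₀ ≤ M₁ → (M₁ : ℝ) ≤ (X : ℝ) ^ (2 / 5 : ℝ) → M₁ * Y ≤ 5 * X →
    ∀ T : Finset ℕ, (∀ n ∈ T, 1 ≤ n ∧ n ≤ Y ∧ ∀ p ∈ n.primeFactors,
      (X : ℝ) ^ (1 / 9 : ℝ) ≤ (p : ℝ)) →
    ∀ r : ℕ → ℕ, ∀ Q : ℕ, (Q : ℝ) ≤ m₀ * (X : ℝ) ^ (4995 / 10000 : ℝ) → ∀ D : Finset ℕ,
    (∀ d ∈ D, Squarefree d ∧ d ≤ Q ∧ (r d).Coprime d) →
    Q ≤ X ∧ ∑ d ∈ D, EP M₀ M₁ T (r d) d ≤ X / Real.log X ^ V := by
  obtain ⟨k, hk⟩ := sum_pow_omega_div_totient 1 le_rfl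
  obtain ⟨K, hK⟩ : ∃ K : ℕ, K = 2 ^ k := ⟨_, rfl⟩
  rw [← hK] at hk
  obtain ⟨C, hC⟩ : ∃ C : ℕ, C = K + V + 2 := ⟨_, rfl⟩
  obtain ⟨U', hU⟩ : ∃ U' : ℕ, U' = C + (K + V + 1) := ⟨_, rfl⟩
  obtain ⟨X1, hX1⟩ := bvU 1 U'
  obtain ⟨X2, hX2⟩ := ev 8 (3 * C) (1 / 9) (by norm_num)
  obtain ⟨X3, hX3⟩ := ev (2 ^ K * (40 + 72 * (4 + (m₀ : ℝ)))) (K + C + V + 2) (5 / 10000)
    (by norm_num)
  obtain ⟨X4, hX4⟩ := ev (m₀ : ℝ) 0 (5005 / 10000) (by norm_num)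
  obtain ⟨X5, hX5⟩ := Filter.eventually_atTop.mp
    ((Real.tendsto_log_atTop.comp (tendsto_natCast_atTop_atTop (R := ℝ))).eventually
      (Filter.eventually_ge_atTop ((2 : ℝ) ^ K * (20 * 9 ^ U' + 120) + 1)))
  obtain ⟨X6, hX6⟩ := Filter.eventually_atTop.mp
    (((tendsto_rpow_atTop (show (0 : ℝ) < 1 / 9 by norm_num)).comp
      (tendsto_natCast_atTop_atTop (R := ℝ))).eventually
      (Filter.eventually_ge_atTop ((X1 : ℝ))))
  refine ⟨max (max (max X2 X3) (max X4 X5)) (max X6 2), ?_⟩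
  intro X hX M₀ M₁ Y hM0 hMM hM1 hMY T hT r Q hQ D hD
  simp only [max_le_iff] at hX
  obtain ⟨⟨⟨x2, x3⟩, x4, x5⟩, x6, x7⟩ := hX
  have f2 := hX2 X x2
  have f3 := hX3 X x3
  have f4 := hX4 X x4
  have f5 := hX5 X x5
  have f6 := hX6 X x6
  simp only [Function.comp] at f5 f6
  rw [pow_zero, mul_one] at f4
  have hXr : (1 : ℝ) ≤ X := by exact_mod_cast (by omega : 1 ≤ X)
  have hX0 : (0 : ℝ) < X := by linarith
  have hMMr : (M₀ : ℝ) ≤ M₁ := by exact_mod_cast hMM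
  have hwM := hM0.trans hMMr
  have hMYr : (M₁ : ℝ) * Y ≤ 5 * X := by exact_mod_cast hMY
  have hQX : Q ≤ X := by
    have h1 : (Q : ℝ) ≤ X := by
      refine hQ.trans ?_
      calc (m₀ : ℝ) * (X : ℝ) ^ (4995 / 10000 : ℝ) ≤
          (X : ℝ) ^ (5005 / 10000 : ℝ) * (X : ℝ) ^ (4995 / 10000 : ℝ) := by gcongr
        _ = X := by
            rw [← Real.rpow_add hX0]
            norm_num
    exact_mod_cast h1
  refine ⟨hQX, ?_⟩
  obtain ⟨L, hL⟩ : ∃ L : ℝ, L = Real.log X := ⟨_, rfl⟩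
  have hLw : 1 / 9 * L ≤ Real.log M₁ := by
    rw [hL, ← Real.log_rpow hX0]
    exact Real.log_le_log (by positivity) hwM
  rw [← hL] at f2 f3 f5 ⊢
  have h9 : (0 : ℝ) < 9 ^ U' := by positivity
  have hK0 : (0 : ℝ) < 2 ^ K := by positivity
  have hL1 : 1 ≤ L := by
    have : 0 ≤ (2 : ℝ) ^ K * (20 * 9 ^ U' + 120) := by positivity
    linarith
  have hL0 : 0 < L := by linarith
  obtain ⟨F0, hF0⟩ : ∃ F0 : ℕ, F0 = ⌈L ^ C⌉₊ := ⟨_, rfl⟩
  have hLC : 1 ≤ L ^ C := one_le_pow₀ hL1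
  have hF1 : L ^ C ≤ F0 := by rw [hF0]; exact Nat.le_ceil _
  have hF2 : (F0 : ℝ) ≤ 2 * L ^ C := by
    have h1 := Nat.ceil_lt_add_one (show 0 ≤ L ^ C by positivity)
    rw [← hF0] at h1
    linarith
  have hF3 : 1 ≤ F0 := by
    have h1 : (1 : ℝ) ≤ F0 := hLC.trans hF1
    exact_mod_cast h1
  have hF4 : F0 ^ 3 ≤ 1 ^ 3 * M₁ := by
    have h1 : (F0 : ℝ) ^ 3 ≤ M₁ := by
      calc (F0 : ℝ) ^ 3 ≤ (2 * L ^ C) ^ 3 := pow_le_pow_left₀ (Nat.cast_nonneg _) hF2 3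
        _ = 8 * L ^ (3 * C) := by
            rw [mul_pow, ← pow_mul, mul_comm C 3]
            norm_num
        _ ≤ _ := f2
        _ ≤ M₁ := hwM
    rw [one_pow, one_mul]
    exact_mod_cast h1
  have hM1X : X1 ≤ M₁ := by
    have h1 : (X1 : ℝ) ≤ M₁ := f6.trans hwM
    exact_mod_cast h1
  have hE1 := hX1 M₁ hM1X M₁ le_rfl F0 hF4
  have hE0 := hX1 M₁ hM1X M₀ hMM F0 hF4
  obtain ⟨E, hE⟩ : ∃ E : ℝ, E = M₁ / Real.log M₁ ^ U' := ⟨_, rfl⟩
  rw [← hE] at hE1 hE0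
  have hEb : E ≤ M₁ * 9 ^ U' / L ^ U' := by
    have h1 : (1 / 9 * L) ^ U' ≤ Real.log M₁ ^ U' := pow_le_pow_left₀ (by positivity) hLw U'
    have h2 : (M₁ : ℝ) * 9 ^ U' / L ^ U' = M₁ / (1 / 9 * L) ^ U' := by
      rw [mul_pow, one_div, inv_pow]
      field_simp
    rw [h2, hE]
    exact div_le_div_of_nonneg_left (Nat.cast_nonneg _) (by positivity) h1
  have hEnn : 0 ≤ E := (sum_nonneg fun f _ => ee_nonneg M₁ f).trans hE1
  have hlQ : Real.log Q ≤ L := by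
    rcases Nat.eq_zero_or_pos Q with hq | hq
    · rw [hq, Nat.cast_zero, Real.log_zero]
      exact hL0.le
    · rw [hL]
      exact Real.log_le_log (by exact_mod_cast hq) (by exact_mod_cast hQX)
  have hlQ0 : 0 ≤ Real.log Q := Real.log_natCast_nonneg Q
  have hT' : ∀ n ∈ T, 1 ≤ n ∧ n ≤ Y := fun n hn => ⟨(hT n hn).1, (hT n hn).2.1⟩
  have hHH : ∑ g ∈ Icc 1 Q, 1 / (Nat.totient g : ℝ) ≤ (2 * L) ^ K := by
    have h1 := hk Q
    simp only [one_pow] at h1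
    exact h1.trans (pow_le_pow_left₀ (by linarith) (by linarith) K)
  obtain ⟨Z, hZ⟩ : ∃ Z : ℝ, Z = (X : ℝ) ^ (9995 / 10000 : ℝ) := ⟨_, rfl⟩
  have hZ0 : 0 < Z := by rw [hZ]; positivity
  -- the main part
  have hom : ∀ g : ℕ, g ≠ 0 → g ≤ Q → (g.primeFactors.card : ℝ) ≤ 2 * L := by
    intro g hg hgQ
    have h1 := om_le g hg
    have h2 : Real.log g ≤ L := by
      rw [hL]
      exact Real.log_le_log (by exact_mod_cast Nat.pos_of_ne_zero hg)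
        (by exact_mod_cast hgQ.trans hQX)
    linarith
  obtain ⟨B1, hB1⟩ : ∃ B1 : ℝ, B1 = (20 * 9 ^ U' + 120) * X / L ^ (K + V + 1) +
      (20 + 72 * (4 + m₀)) * L ^ (C + 1) * Z := ⟨_, rfl⟩
  have hB10 : 0 ≤ B1 := by rw [hB1]; positivity
  have hper : ∀ g ∈ Icc 1 Q, (1 / (Nat.totient g : ℝ)) * ∑ f ∈ Icc 2 Q,
      (1 / (Nat.totient f : ℝ)) * BLB.P M₁ Y (BLB.res g (al M₀)) (BLB.res g (be T)) f ≤
      (1 / (Nat.totient g : ℝ)) * B1 := by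
    intro g hg
    rw [mem_Icc] at hg
    apply mul_le_mul_of_nonneg_left _ (by positivity)
    have h1 := perg M₀ M₁ Y Q F0 g T hMM (by omega) hF3 (by omega) E hE1 hE0
    have h2 := pergb (x := X) (L := L) (E := E) (m₀ := m₀) (K := K) (V := V) (C := C) (U' := U')
      (M₁ := M₁) (Y := Y) (Q := Q) (F0 := F0) (g.primeFactors.card : ℝ) hXr hL1 hC hU hwM hM1
      hMYr hQ hlQ hF1 hF2 hEnn hEb (Nat.cast_nonneg _) (hom g (by omega) hg.2)
    rw [← hZ, ← hB1] at h2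
    exact h1.trans h2
  have hmain := (comb M₁ Y Q (al M₀) (be T) D r hD).trans (sum_le_sum hper)
  rw [← sum_mul] at hmain
  have hmain2 := hmain.trans (mul_le_mul_of_nonneg_right hHH hB10)
  -- the remaining part
  have hbad : ∀ d ∈ D, 1 / (Nat.totient d : ℝ) * BB M₀ M₁ T d ≤
      1 / (Nat.totient d : ℝ) * (20 * L ^ (C + 1) * Z) := by
    intro d hd
    obtain ⟨h1, h2, -⟩ := hD d hd
    have hd0 : d ≠ 0 := h1.ne_zero
    apply mul_le_mul_of_nonneg_left _ (by positivity)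
    have hw0 : (0 : ℝ) < (X : ℝ) ^ (1 / 9 : ℝ) := by positivity
    have h3 := BB_le M₀ M₁ Y T ((X : ℝ) ^ (1 / 9 : ℝ)) hw0 hT hwM d hd0
    have h4 : 2 * ((M₁ : ℝ) * Y) / (X : ℝ) ^ (1 / 9 : ℝ) ≤ 10 * Z := by
      rw [div_le_iff₀ hw0]
      have h5 : (X : ℝ) ≤ Z * (X : ℝ) ^ (1 / 9 : ℝ) := by
        rw [hZ, ← Real.rpow_add hX0]
        calc (X : ℝ) = (X : ℝ) ^ (1 : ℝ) := (Real.rpow_one _).symm
          _ ≤ _ := Real.rpow_le_rpow_of_exponent_le hXr (by norm_num)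
      linarith
    have h6 : L ≤ L ^ (C + 1) := by
      calc L = L ^ 1 := (pow_one L).symm
        _ ≤ L ^ (C + 1) := pow_le_pow_right₀ hL1 (by omega)
    calc BB M₀ M₁ T d ≤ (2 * L) * (10 * Z) :=
          h3.trans (mul_le_mul (hom d hd0 h2) h4 (by positivity) (by positivity))
      _ = 20 * L * Z := by ring
      _ ≤ 20 * L ^ (C + 1) * Z := by gcongr
  have hbad2 : ∑ d ∈ D, 1 / (Nat.totient d : ℝ) * BB M₀ M₁ T d ≤
      (2 * L) ^ K * (20 * L ^ (C + 1) * Z) := by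
    refine (sum_le_sum hbad).trans ?_
    rw [← sum_mul]
    apply mul_le_mul_of_nonneg_right _ (by positivity)
    refine le_trans (sum_le_sum_of_subset_of_nonneg ?_ ?_) hHH
    · intro d hd
      obtain ⟨h1, h2, -⟩ := hD d hd
      have hd0 : d ≠ 0 := h1.ne_zero
      exact mem_Icc.2 ⟨by omega, h2⟩
    · intro d _ _
      positivity
  have htot : ∑ d ∈ D, EP M₀ M₁ T (r d) d ≤ (2 * L) ^ K * B1 +
      (2 * L) ^ K * (20 * L ^ (C + 1) * Z) := by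
    refine (sum_le_sum fun d _ => EP_E M₀ M₁ Y T hT' (r d) d).trans ?_
    rw [sum_add_distrib]
    exact add_le_add hmain2 hbad2
  have htot2 : ∑ d ∈ D, EP M₀ M₁ T (r d) d ≤ (2 * L) ^ K *
      ((20 * 9 ^ U' + 120) * X / L ^ (K + V + 1) +
        (40 + 72 * (4 + (m₀ : ℝ))) * L ^ (C + 1) * Z) := by
    refine htot.trans (le_of_eq ?_)
    rw [hB1]
    ring
  exact arithB (y := (X : ℝ) ^ (5 / 10000 : ℝ)) hL0 hX0.le hZ0.le (by
    rw [hZ, ← Real.rpow_add hX0]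
    norm_num) f3 f5 htot2

theorem blv : St_BLV := by
  classical
  intro m₀ κ U hm hκ
  obtain ⟨k, hk⟩ := sum_pow_omega_div_totient ((κ : ℝ) ^ 2) (by
    have : (1:ℝ) ≤ κ := by exact_mod_cast hκ
    exact one_le_pow₀ this)
  obtain ⟨K, hK⟩ : ∃ K : ℕ, K = 2 ^ k := ⟨_, rfl⟩
  rw [← hK] at hk
  obtain ⟨X1, hX1⟩ := unw m₀ (K + 2 * U + 1)
  obtain ⟨X2, hX2⟩ := ev (m₀ : ℝ) 0 (1005 / 10000) (by norm_num)
  obtain ⟨X4, hX4⟩ := Filter.eventually_atTop.mp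
    ((Real.tendsto_log_atTop.comp (tendsto_natCast_atTop_atTop (R := ℝ))).eventually
      (Filter.eventually_ge_atTop ((11 : ℝ) * 2 ^ K + 1)))
  refine ⟨max (max X1 X4) (max 2 X2), ?_⟩
  intro X hX M₀ M₁ Y hM0 hMM hM1 hMY T hT r
  simp only [max_le_iff] at hX
  obtain ⟨⟨x1, x4⟩, x5, x2⟩ := hX
  obtain ⟨Q, hQd⟩ : ∃ Q : ℕ, Q = ⌊m₀ * (X : ℝ) ^ (4995 / 10000 : ℝ)⌋₊ := ⟨_, rfl⟩
  rw [← hQd]
  have hXr : (1 : ℝ) ≤ X := by exact_mod_cast (by omega : 1 ≤ X)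
  have hX0 : (0 : ℝ) < X := by linarith
  have hQ : (Q : ℝ) ≤ m₀ * (X : ℝ) ^ (4995 / 10000 : ℝ) := by
    rw [hQd]
    exact Nat.floor_le (by positivity)
  obtain ⟨D, hDd⟩ : ∃ D : Finset ℕ, D = (Icc 1 Q).filter
    (fun d => Squarefree d ∧ (r d).Coprime d) := ⟨_, rfl⟩
  have hD : ∀ d ∈ D, Squarefree d ∧ d ≤ Q ∧ (r d).Coprime d := by
    intro d hd
    rw [hDd, mem_filter, mem_Icc] at hd
    exact ⟨hd.2.1, hd.1.2, hd.2.2⟩
  have hDQ : D ⊆ Icc 1 Q := by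
    rw [hDd]
    exact filter_subset _ _
  obtain ⟨hQX, e1⟩ := hX1 X x1 M₀ M₁ Y hM0 hMM hM1 hMY T hT r Q hQ D hD
  have f2 := hX2 X x2
  rw [pow_zero, mul_one] at f2
  have e4 := hX4 X x4
  simp only [Function.comp] at e4
  have hT' : ∀ n ∈ T, 1 ≤ n ∧ n ≤ Y := fun n hn => ⟨(hT n hn).1, (hT n hn).2.1⟩
  have hMYr : (M₁ : ℝ) * Y ≤ 5 * X := by exact_mod_cast hMY
  have goal : ∑ d ∈ D, (κ : ℝ) ^ d.primeFactors.card * EP M₀ M₁ T (r d) d ≤
      X / Real.log X ^ U := by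
    obtain ⟨L, hL⟩ : ∃ L : ℝ, L = Real.log X := ⟨_, rfl⟩
    rw [← hL] at e1 e4 ⊢
    have hK0 : (0:ℝ) < 2 ^ K := by positivity
    have hL1 : 1 ≤ L := by linarith
    have hL0 : 0 < L := by linarith
    have hlQ : Real.log Q ≤ L := by
      rcases Nat.eq_zero_or_pos Q with hq | hq
      · rw [hq, Nat.cast_zero, Real.log_zero]
        exact hL0.le
      · rw [hL]
        exact Real.log_le_log (by exact_mod_cast hq) (by exact_mod_cast hQX)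
    have hlQ0 : 0 ≤ Real.log Q := Real.log_natCast_nonneg Q
    have h1 : ∑ d ∈ D, ((κ : ℝ) ^ d.primeFactors.card) ^ 2 * EP M₀ M₁ T (r d) d ≤
        11 * X * (2 * L) ^ K := by
      calc ∑ d ∈ D, ((κ : ℝ) ^ d.primeFactors.card) ^ 2 * EP M₀ M₁ T (r d) d ≤
          ∑ d ∈ D, 11 * X * (((κ : ℝ) ^ 2) ^ d.primeFactors.card / (Nat.totient d : ℝ)) := by
            apply sum_le_sum
            intro d hd
            obtain ⟨g1, g2, g3⟩ := hD d hd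
            have hd0 : 0 < d := Nat.pos_of_ne_zero g1.ne_zero
            have h2 := EP_le M₀ M₁ Y T hT' (r d) d hd0 g3
            have hφ : (0 : ℝ) < Nat.totient d := by exact_mod_cast Nat.totient_pos.mpr hd0
            have hφQ : (Nat.totient d : ℝ) ≤ Q := by
              exact_mod_cast (Nat.totient_le d).trans g2
            have hMφ : (M₁ : ℝ) * Nat.totient d ≤ X := by
              calc (M₁ : ℝ) * Nat.totient d ≤ (X : ℝ) ^ (2 / 5 : ℝ) *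
                  (m₀ * (X : ℝ) ^ (4995 / 10000 : ℝ)) :=
                    mul_le_mul hM1 (hφQ.trans hQ) hφ.le (by positivity)
                _ ≤ (X : ℝ) ^ (2 / 5 : ℝ) *
                  ((X : ℝ) ^ (1005 / 10000 : ℝ) * (X : ℝ) ^ (4995 / 10000 : ℝ)) := by gcongr
                _ = X := by
                    rw [← Real.rpow_add hX0, ← Real.rpow_add hX0]
                    norm_num
            have h3 : EP M₀ M₁ T (r d) d ≤ 11 * X / (Nat.totient d : ℝ) := by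
              rw [le_div_iff₀ hφ]
              have h4 : (2 * ((M₁ : ℝ) * Y) / (Nat.totient d : ℝ) + M₁) * (Nat.totient d : ℝ) =
                  2 * (M₁ * Y) + M₁ * Nat.totient d := by
                field_simp
              have h5 := mul_le_mul_of_nonneg_right h2 hφ.le
              linarith
            calc ((κ : ℝ) ^ d.primeFactors.card) ^ 2 * EP M₀ M₁ T (r d) d ≤
                ((κ : ℝ) ^ d.primeFactors.card) ^ 2 * (11 * X / (Nat.totient d : ℝ)) :=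
                  mul_le_mul_of_nonneg_left h3 (by positivity)
              _ = 11 * X * (((κ : ℝ) ^ 2) ^ d.primeFactors.card / (Nat.totient d : ℝ)) := by
                  rw [← pow_mul, ← pow_mul, mul_comm 2 d.primeFactors.card]
                  ring
        _ ≤ ∑ d ∈ Icc 1 Q, 11 * X * (((κ : ℝ) ^ 2) ^ d.primeFactors.card /
              (Nat.totient d : ℝ)) :=
            sum_le_sum_of_subset_of_nonneg hDQ fun d _ _ => by positivity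
        _ = 11 * X * ∑ d ∈ Icc 1 Q, (((κ : ℝ) ^ 2) ^ d.primeFactors.card /
              (Nat.totient d : ℝ)) := by
            rw [mul_sum]
        _ ≤ 11 * X * (1 + Real.log Q) ^ K := mul_le_mul_of_nonneg_left (hk Q) (by positivity)
        _ ≤ 11 * X * (2 * L) ^ K := by
            apply mul_le_mul_of_nonneg_left _ (by positivity)
            exact pow_le_pow_left₀ (by linarith) (by linarith) K
    have hcs : (∑ d ∈ D, (κ : ℝ) ^ d.primeFactors.card * EP M₀ M₁ T (r d) d) ^ 2 ≤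
        (∑ d ∈ D, ((κ : ℝ) ^ d.primeFactors.card) ^ 2 * EP M₀ M₁ T (r d) d) *
          ∑ d ∈ D, EP M₀ M₁ T (r d) d := by
      apply Finset.sum_sq_le_sum_mul_sum_of_sq_eq_mul
      · intro d _
        have := EP_nonneg M₀ M₁ T (r d) d
        positivity
      · intro d _
        exact EP_nonneg M₀ M₁ T (r d) d
      · intro d _
        ring
    have hA0 : 0 ≤ ∑ d ∈ D, EP M₀ M₁ T (r d) d :=
      sum_nonneg fun d _ => EP_nonneg M₀ M₁ T (r d) d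
    have h6 : (∑ d ∈ D, (κ : ℝ) ^ d.primeFactors.card * EP M₀ M₁ T (r d) d) ^ 2 ≤
        (X / L ^ U) ^ 2 := by
      refine hcs.trans ?_
      calc (∑ d ∈ D, ((κ : ℝ) ^ d.primeFactors.card) ^ 2 * EP M₀ M₁ T (r d) d) *
          ∑ d ∈ D, EP M₀ M₁ T (r d) d ≤ (11 * X * (2 * L) ^ K) * (X / L ^ (K + 2 * U + 1)) :=
            mul_le_mul h1 e1 hA0 (by positivity)
        _ = (X / L ^ U) ^ 2 * (11 * 2 ^ K / L) := by
            have e7 : L ^ (K + 2 * U + 1) = L ^ K * (L ^ U) ^ 2 * L := by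
              rw [pow_succ, pow_add, mul_comm 2 U, pow_mul]
            rw [mul_pow, e7]
            field_simp
        _ ≤ (X / L ^ U) ^ 2 * 1 := by
            apply mul_le_mul_of_nonneg_left _ (by positivity)
            rw [div_le_one hL0]
            linarith
        _ = _ := mul_one _
    exact le_of_pow_le_pow_left₀ (by norm_num) (by positivity) h6
  refine le_trans (le_of_eq ?_) goal
  rw [hDd]
  refine sum_congr ?_ fun d _ => ?_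
  · congr
  · rw [EP, ← NN_card, PP]

end Pool.Agent.Y261.CH
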