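import Pool.Agent.Y843.CH.Stm

/-!
Project CH, auxiliary lemmas for the task BLV (helper261).
-/

set_option autoImplicit false

namespace Pool.Agent.Y261.CH

open Finset H343E Pool.Agent.H398R2.BV Pool.Agent.TH423.SH.PSUa Pool.Agent.Helper112

/-- the indicator of the primes above `M₀` -/
noncomputable def al (M₀ : ℕ) (b : ℕ) : ℝ := if b.Prime ∧ M₀ < b then 1 else 0

/-- the indicator of a set -/
noncomputable def be (T : Finset ℕ) (c : ℕ) : ℝ := if c ∈ T then 1 else 0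

/-- the primes of the interval -/
def PP (M₀ M₁ : ℕ) : Finset ℕ := (Ioc M₀ M₁).filter Nat.Prime

lemma mem_PP {M₀ M₁ b : ℕ} : b ∈ PP M₀ M₁ ↔ (M₀ < b ∧ b ≤ M₁) ∧ b.Prime := by
  rw [PP, mem_filter, mem_Ioc]

lemma sum_ab (M₀ M₁ Y : ℕ) (T : Finset ℕ) (hT : ∀ n ∈ T, 1 ≤ n ∧ n ≤ Y) (W : ℕ → ℕ → ℝ) :
    ∑ b ∈ Icc 1 M₁, ∑ c ∈ Icc 1 Y, al M₀ b * be T c * W b c =
      ∑ b ∈ PP M₀ M₁, ∑ c ∈ T, W b c := by
  have h1 : ∀ b, ∑ c ∈ Icc 1 Y, al M₀ b * be T c * W b c = al M₀ b * ∑ c ∈ T, W b c := by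
    intro b
    have h2 : ∑ c ∈ Icc 1 Y, be T c * W b c = ∑ c ∈ T, W b c := by
      refine (Finset.sum_subset (fun n hn => mem_Icc.2 (hT n hn)) (fun n _ hn => ?_)).symm.trans
        (sum_congr rfl fun c hc => ?_)
      · rw [be, if_neg hn, zero_mul]
      · rw [be, if_pos hc, one_mul]
    rw [← h2, mul_sum]
    exact sum_congr rfl fun c _ => by ring
  rw [sum_congr rfl fun b _ => h1 b]
  refine (Finset.sum_subset (s₁ := PP M₀ M₁) (fun n hn => ?_) (fun n hn1 hn => ?_)).symm.trans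
        (sum_congr rfl fun b hb => ?_)
  · rw [mem_PP] at hn
    exact mem_Icc.2 ⟨by omega, hn.1.2⟩
  · rw [mem_PP] at hn
    rw [mem_Icc] at hn1
    rw [al, if_neg (fun h => hn ⟨⟨h.2, hn1.2⟩, h.1⟩), zero_mul]
  · rw [mem_PP] at hb
    rw [al, if_pos ⟨hb.2, hb.1.1⟩, one_mul]

/-- the number of the products in a residue class -/
noncomputable def NN (M₀ M₁ : ℕ) (T : Finset ℕ) (r d : ℕ) : ℝ :=
  ∑ b ∈ PP M₀ M₁, ∑ c ∈ T, if b * c ≡ r [MOD d] then 1 else 0

lemma NN_card (M₀ M₁ : ℕ) (T : Finset ℕ) (r d : ℕ) :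
    (((PP M₀ M₁ ×ˢ T).filter (fun x => x.1 * x.2 ≡ r [MOD d])).card : ℝ) = NN M₀ M₁ T r d := by
  rw [card_filter, Nat.cast_sum, sum_product, NN]
  refine sum_congr rfl fun b _ => sum_congr rfl fun c _ => ?_
  rw [Nat.cast_ite, Nat.cast_one, Nat.cast_zero]

lemma PP_card (M₀ M₁ : ℕ) : ((PP M₀ M₁).card : ℝ) ≤ M₁ := by
  have h1 : (PP M₀ M₁).card ≤ (Ioc M₀ M₁).card := card_filter_le _ _
  rw [Nat.card_Ioc] at h1
  exact_mod_cast h1.trans (Nat.sub_le _ _)

lemma T_card (Y : ℕ) (T : Finset ℕ) (hT : ∀ n ∈ T, 1 ≤ n ∧ n ≤ Y) : (T.card : ℝ) ≤ Y := by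
  have h1 : T ⊆ Icc 1 Y := fun n hn => mem_Icc.2 (hT n hn)
  have h2 := card_le_card h1
  rw [Nat.card_Icc] at h2
  exact_mod_cast (by omega : T.card ≤ Y)

lemma NN_le (M₀ M₁ Y : ℕ) (T : Finset ℕ) (hT : ∀ n ∈ T, 1 ≤ n ∧ n ≤ Y) (r d : ℕ) (hd : 1 ≤ d)
    (hr : r.Coprime d) : NN M₀ M₁ T r d ≤ M₁ * ((Y : ℝ) / d + 1) := by
  have h1 : ∀ b ∈ PP M₀ M₁, ∑ c ∈ T, (if b * c ≡ r [MOD d] then (1 : ℝ) else 0) ≤
      (Y : ℝ) / d + 1 := by
    intro b _
    have h2 : ∑ c ∈ T, (if b * c ≡ r [MOD d] then (1 : ℝ) else 0) =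
        ((T.filter (fun c => b * c ≡ r [MOD d])).card : ℝ) := by
      rw [card_filter, Nat.cast_sum]
      refine sum_congr rfl fun c _ => ?_
      rw [Nat.cast_ite, Nat.cast_one, Nat.cast_zero]
    rw [h2]
    rcases (T.filter (fun c => b * c ≡ r [MOD d])).eq_empty_or_nonempty with h3 | ⟨c₀, h3⟩
    · rw [h3, card_empty]
      have : (0 : ℝ) ≤ (Y : ℝ) / d := by positivity
      simpa using by linarith
    · rw [mem_filter] at h3
      refine le_trans ?_ (card_mod Y d c₀ hd)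
      apply Nat.cast_le.2
      apply card_le_card
      intro c hc
      rw [mem_filter] at hc ⊢
      refine ⟨mem_Icc.2 (hT c hc.1), ?_⟩
      have h4 : (b * c₀).Coprime d := by
        have h5 := h3.2.gcd_eq
        rw [Nat.Coprime] at hr ⊢
        rw [h5]
        exact hr
      have h6 : Nat.gcd d b = 1 := by
        have := Nat.Coprime.coprime_mul_right h4
        exact this.symm
      exact Nat.ModEq.cancel_left_of_coprime h6 (hc.2.trans h3.2.symm)
  have h2 := sum_le_card_nsmul _ _ _ h1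
  rw [nsmul_eq_mul] at h2
  refine h2.trans ?_
  have h3 : (0 : ℝ) ≤ (Y : ℝ) / d + 1 := by positivity
  exact mul_le_mul_of_nonneg_right (PP_card M₀ M₁) h3

/-- the number of the products which are not coprime to `d` -/
noncomputable def BB (M₀ M₁ : ℕ) (T : Finset ℕ) (d : ℕ) : ℝ :=
  ∑ b ∈ PP M₀ M₁, ∑ c ∈ T, if (b * c).Coprime d then 0 else 1

lemma BB_le (M₀ M₁ Y : ℕ) (T : Finset ℕ) (w : ℝ) (hw : 0 < w)
    (hT : ∀ n ∈ T, 1 ≤ n ∧ n ≤ Y ∧ ∀ p ∈ n.primeFactors, w ≤ (p : ℝ)) (hwM : w ≤ M₁)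
    (d : ℕ) (hd : d ≠ 0) :
    BB M₀ M₁ T d ≤ d.primeFactors.card * (2 * (M₁ * Y) / w) := by
  have hT' : ∀ n ∈ T, 1 ≤ n ∧ n ≤ Y := fun n hn => ⟨(hT n hn).1, (hT n hn).2.1⟩
  have h1 : ∀ b ∈ PP M₀ M₁, ∀ c ∈ T, (if (b * c).Coprime d then (0 : ℝ) else 1) ≤
      ∑ p ∈ d.primeFactors, ((if p = b then (1 : ℝ) else 0) + (if p ∣ c then (1 : ℝ) else 0)) := by
    intro b hb c _
    have h0 : ∀ p ∈ d.primeFactors, 0 ≤ ((if p = b then (1 : ℝ) else 0) +
        (if p ∣ c then (1 : ℝ) else 0)) := by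
      intro p _
      have h2 : 0 ≤ (if p = b then (1 : ℝ) else 0) := by split_ifs <;> norm_num
      have h3 : 0 ≤ (if p ∣ c then (1 : ℝ) else 0) := by split_ifs <;> norm_num
      linarith
    split_ifs with h2
    · exact sum_nonneg h0
    · rw [Nat.Prime.not_coprime_iff_dvd] at h2
      obtain ⟨p, hp, hpbc, hpd⟩ := h2
      have hpm : p ∈ d.primeFactors := Nat.mem_primeFactors.2 ⟨hp, hpd, hd⟩
      refine le_trans ?_ (single_le_sum h0 hpm)
      have h4 : 0 ≤ (if p = b then (1 : ℝ) else 0) := by split_ifs <;> norm_num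
      have h3 : 0 ≤ (if p ∣ c then (1 : ℝ) else 0) := by split_ifs <;> norm_num
      rcases (Nat.Prime.dvd_mul hp).1 hpbc with h5 | h5
      · rw [if_pos ((Nat.prime_dvd_prime_iff_eq hp (mem_PP.1 hb).2).1 h5)]
        linarith
      · rw [if_pos h5]
        linarith
  have h2 : BB M₀ M₁ T d ≤ ∑ b ∈ PP M₀ M₁, ∑ c ∈ T, ∑ p ∈ d.primeFactors,
      ((if p = b then (1 : ℝ) else 0) + (if p ∣ c then (1 : ℝ) else 0)) :=
    sum_le_sum fun b hb => sum_le_sum fun c hc => h1 b hb c hc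
  have h3 : ∑ b ∈ PP M₀ M₁, ∑ c ∈ T, ∑ p ∈ d.primeFactors,
      ((if p = b then (1 : ℝ) else 0) + (if p ∣ c then (1 : ℝ) else 0)) =
      ∑ p ∈ d.primeFactors, (∑ b ∈ PP M₀ M₁, ∑ c ∈ T, (if p = b then (1 : ℝ) else 0) +
        ∑ b ∈ PP M₀ M₁, ∑ c ∈ T, (if p ∣ c then (1 : ℝ) else 0)) := by
    rw [sum_congr rfl fun b _ => sum_comm, sum_comm]
    refine sum_congr rfl fun p _ => ?_
    simp only [sum_add_distrib]
  have hTc := T_card Y T hT'
  have h4 : ∀ p ∈ d.primeFactors, (∑ b ∈ PP M₀ M₁, ∑ c ∈ T, (if p = b then (1 : ℝ) else 0) +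
        ∑ b ∈ PP M₀ M₁, ∑ c ∈ T, (if p ∣ c then (1 : ℝ) else 0)) ≤ 2 * (M₁ * Y) / w := by
    intro p _
    have hY0 : (0 : ℝ) ≤ Y := Nat.cast_nonneg Y
    have e1 : ∑ b ∈ PP M₀ M₁, ∑ c ∈ T, (if p = b then (1 : ℝ) else 0) ≤ M₁ * Y / w := by
      have e2 : ∑ b ∈ PP M₀ M₁, ∑ c ∈ T, (if p = b then (1 : ℝ) else 0) ≤ T.card := by
        rw [sum_comm]
        have e3 : ∀ c ∈ T, ∑ b ∈ PP M₀ M₁, (if p = b then (1 : ℝ) else 0) ≤ 1 := by
          intro c _
          rw [sum_ite_eq]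
          split_ifs <;> norm_num
        have e4 := sum_le_card_nsmul _ _ _ e3
        rw [nsmul_eq_mul, mul_one] at e4
        exact e4
      refine e2.trans (hTc.trans ?_)
      rw [le_div_iff₀ hw, mul_comm]
      exact mul_le_mul_of_nonneg_right hwM hY0
    have e2 : ∑ b ∈ PP M₀ M₁, ∑ c ∈ T, (if p ∣ c then (1 : ℝ) else 0) ≤ M₁ * Y / w := by
      have e3 : ∑ c ∈ T, (if p ∣ c then (1 : ℝ) else 0) ≤ Y / w := by
        have e4 : ∑ c ∈ T, (if p ∣ c then (1 : ℝ) else 0) =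
            ((T.filter (fun c => p ∣ c)).card : ℝ) := by
          rw [card_filter, Nat.cast_sum]
          refine sum_congr rfl fun c _ => ?_
          rw [Nat.cast_ite, Nat.cast_one, Nat.cast_zero]
        rw [e4]
        rcases (T.filter (fun c => p ∣ c)).eq_empty_or_nonempty with h3 | ⟨c₀, h3⟩
        · rw [h3, card_empty, Nat.cast_zero]
          positivity
        · rename_i hp
          rw [mem_filter] at h3
          have hpp := Nat.prime_of_mem_primeFactors hp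
          have hc0 := hT c₀ h3.1
          have hwp : w ≤ p := hc0.2.2 p (Nat.mem_primeFactors.2 ⟨hpp, h3.2, by omega⟩)
          have e5 : (T.filter (fun c => p ∣ c)).card ≤ Y / p := by
            have e6 : T.filter (fun c => p ∣ c) ⊆ (Ioc 0 Y).filter (fun c => p ∣ c) := by
              intro c hc
              rw [mem_filter] at hc ⊢
              have := hT' c hc.1
              exact ⟨mem_Ioc.2 ⟨by omega, this.2⟩, hc.2⟩
            refine (card_le_card e6).trans ?_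
            rw [Nat.Ioc_filter_dvd_card_eq_div]
          rw [le_div_iff₀ hw]
          calc ((T.filter (fun c => p ∣ c)).card : ℝ) * w ≤
              ((T.filter (fun c => p ∣ c)).card : ℝ) * p :=
                mul_le_mul_of_nonneg_left hwp (Nat.cast_nonneg _)
            _ ≤ ((Y / p : ℕ) : ℝ) * p :=
                mul_le_mul_of_nonneg_right (by exact_mod_cast e5) (Nat.cast_nonneg _)
            _ ≤ Y := by exact_mod_cast Nat.div_mul_le_self Y p
      rw [sum_const, nsmul_eq_mul]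
      have e6 := mul_le_mul (PP_card M₀ M₁) e3 (sum_nonneg fun c _ => by split_ifs <;> norm_num)
        (Nat.cast_nonneg _)
      refine e6.trans (le_of_eq ?_)
      ring
    have e7 : 2 * ((M₁ : ℝ) * Y) / w = M₁ * Y / w + M₁ * Y / w := by ring
    rw [e7]
    exact add_le_add e1 e2
  refine h2.trans ?_
  rw [h3]
  have h5 := sum_le_card_nsmul _ _ _ h4
  rwa [nsmul_eq_mul] at h5

lemma om_le (d : ℕ) (hd : d ≠ 0) : (d.primeFactors.card : ℝ) ≤ 2 * Real.log d := by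
  have h1 : 2 ^ d.primeFactors.card ≤ d := by
    calc 2 ^ d.primeFactors.card = ∏ _p ∈ d.primeFactors, 2 := by rw [prod_const]
      _ ≤ ∏ p ∈ d.primeFactors, p :=
          Finset.prod_le_prod (fun _ _ => Nat.zero_le _)
            (fun p hp => (Nat.prime_of_mem_primeFactors hp).two_le)
      _ ≤ d := Nat.le_of_dvd (Nat.pos_of_ne_zero hd) (Nat.prod_primeFactors_dvd d)
  have h2 : Real.log ((2 : ℝ) ^ d.primeFactors.card) ≤ Real.log d :=
    Real.log_le_log (by positivity) (by exact_mod_cast h1)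
  rw [Real.log_pow] at h2
  have h3 := Real.log_two_gt_d9
  have h4 : (0 : ℝ) ≤ d.primeFactors.card := Nat.cast_nonneg _
  nlinarith

/-- sums of a character over primes -/
lemma char_primes (u f : ℕ) [NeZero f] (ψ : DirichletCharacter ℂ f) (hψ : ψ ≠ 1) :
    ‖∑ p ∈ (Icc 1 u).filter Nat.Prime, ψ (p : ZMod f)‖ ≤ f * ee u f := by
  have hf : 0 < f := NeZero.pos f
  have h1 : ∑ p ∈ (Icc 1 u).filter Nat.Prime, ψ (p : ZMod f) =
      ∑ a ∈ range f, (piAP u f a : ℂ) * ψ (a : ZMod f) := by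
    rw [← sum_fiberwise_of_maps_to (s := (Icc 1 u).filter Nat.Prime) (t := range f)
      (g := fun p => p % f) (fun p _ => mem_range.2 (Nat.mod_lt p hf))]
    apply sum_congr rfl
    intro a ha
    rw [mem_range] at ha
    have h2 : ∀ p ∈ ((Icc 1 u).filter Nat.Prime).filter (fun p => p % f = a),
        ψ (p : ZMod f) = ψ (a : ZMod f) := by
      intro p hp
      rw [mem_filter] at hp
      rw [← hp.2, ZMod.natCast_mod]
    rw [sum_congr rfl h2, sum_const, nsmul_eq_mul]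
    congr 1
    unfold piAP
    rw [Complex.ofReal_natCast]
    congr 2
    ext p
    simp only [mem_filter, mem_Icc, Nat.ModEq, Nat.mod_eq_of_lt ha]
    tauto
  have h3 : ∑ a ∈ range f, ψ (a : ZMod f) = 0 := by
    have h4 := MulChar.sum_eq_zero_of_ne_one hψ
    rw [← h4]
    apply sum_nbij (fun a : ℕ => (a : ZMod f))
    · intro a _
      exact mem_univ _
    · intro a ha b hb hab
      have ha' : a < f := by simpa using ha
      have hb' : b < f := by simpa using hb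
      have h5 := (ZMod.natCast_eq_natCast_iff' a b f).1 hab
      rwa [Nat.mod_eq_of_lt ha', Nat.mod_eq_of_lt hb'] at h5
    · intro x _
      refine ⟨x.val, ?_, ?_⟩
      · simpa using ZMod.val_lt x
      · exact ZMod.natCast_zmod_val x
    · intro a _
      rfl
  have h4 : ∑ a ∈ range f, (piAP u f a : ℂ) * ψ (a : ZMod f) =
      ∑ a ∈ range f, ((piAP u f a - pi1 u / (Nat.totient f : ℝ) : ℝ) : ℂ) * ψ (a : ZMod f) := by
    have h5 : ∑ a ∈ range f, ((piAP u f a - pi1 u / (Nat.totient f : ℝ) : ℝ) : ℂ) *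
        ψ (a : ZMod f) = ∑ a ∈ range f, (piAP u f a : ℂ) * ψ (a : ZMod f) -
        ((pi1 u / (Nat.totient f : ℝ) : ℝ) : ℂ) * ∑ a ∈ range f, ψ (a : ZMod f) := by
      rw [mul_sum, ← sum_sub_distrib]
      refine sum_congr rfl fun a _ => ?_
      rw [Complex.ofReal_sub]
      ring
    rw [h5, h3, mul_zero, sub_zero]
  rw [h1, h4]
  refine (norm_sum_le _ _).trans ?_
  have h6 : ∀ a ∈ range f, ‖((piAP u f a - pi1 u / (Nat.totient f : ℝ) : ℝ) : ℂ) *
      ψ (a : ZMod f)‖ ≤ ee u f := by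
    intro a ha
    rw [mem_range] at ha
    by_cases hc : a.Coprime f
    · rw [norm_mul, Complex.norm_real, Real.norm_eq_abs]
      have h7 := FF_le_ee u f a ha hc
      have h8 : ‖ψ (a : ZMod f)‖ ≤ 1 := ψ.norm_le_one _
      have h9 := FF_nonneg u f a
      unfold FF at h7 h9
      calc |piAP u f a - pi1 u / (Nat.totient f : ℝ)| * ‖ψ (a : ZMod f)‖ ≤
          |piAP u f a - pi1 u / (Nat.totient f : ℝ)| * 1 := mul_le_mul_of_nonneg_left h8 h9
        _ ≤ _ := by rw [mul_one]; exact h7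
    · rw [MulChar.map_nonunit _ (fun hu => hc ((ZMod.isUnit_iff_coprime a f).mp hu)), mul_zero,
        norm_zero]
      exact ee_nonneg u f
  have h7 := sum_le_card_nsmul _ _ _ h6
  rwa [nsmul_eq_mul, card_range] at h7

lemma A_al (M₀ M₁ g f : ℕ) [NeZero f] (hM : M₀ ≤ M₁) (hg : g ≠ 0)
    (ψ : DirichletCharacter ℂ f) (hψ : ψ ≠ 1) :
    ‖BLB.A M₁ (BLB.res g (al M₀)) f ψ‖ ≤
      f * (ee M₁ f + ee M₀ f) + (g.primeFactors.card : ℝ) := by
  have h0 : (Icc 1 M₀).filter Nat.Prime = (Icc 1 M₁).filter (fun b => b.Prime ∧ b ≤ M₀) := by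
    ext b
    simp only [mem_filter, mem_Icc]
    constructor
    · rintro ⟨⟨h1, h2⟩, h3⟩
      exact ⟨⟨h1, h2.trans hM⟩, h3, h2⟩
    · rintro ⟨⟨h1, h2⟩, h3, h4⟩
      exact ⟨⟨h1, h4⟩, h3⟩
  have h1 : BLB.A M₁ (BLB.res g (al M₀)) f ψ =
      ∑ p ∈ (Icc 1 M₁).filter Nat.Prime, ψ (p : ZMod f) -
      ∑ p ∈ (Icc 1 M₀).filter Nat.Prime, ψ (p : ZMod f) -
      ∑ p ∈ (Icc 1 M₁).filter (fun b => (b.Prime ∧ M₀ < b) ∧ ¬ b.Coprime g),
        ψ (p : ZMod f) := by
    rw [h0, BLB.A, sum_filter, sum_filter, sum_filter, ← sum_sub_distrib, ← sum_sub_distrib]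
    refine sum_congr rfl fun b _ => ?_
    rw [BLB.res, al]
    by_cases c1 : b.Prime
    · by_cases c2 : M₀ < b
      · have c4 : ¬ b ≤ M₀ := by omega
        by_cases c3 : b.Coprime g
        · simp only [c1, c2, c4, and_self, and_false, if_true, if_false]
          rw [if_pos c3, if_neg (fun h : True ∧ ¬ b.Coprime g => h.2 c3)]
          simp
        · simp only [c1, c2, c4, and_self, and_false, if_true, if_false]
          rw [if_neg c3, if_pos (⟨trivial, c3⟩ : True ∧ ¬ b.Coprime g)]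
          simp
      · have c4 : b ≤ M₀ := by omega
        simp only [c1, c2, c4, and_self, and_false, false_and, if_true, if_false]
        simp
    · simp only [c1, false_and, if_false]
      simp
  have h2 : ‖∑ p ∈ (Icc 1 M₁).filter (fun b => (b.Prime ∧ M₀ < b) ∧ ¬ b.Coprime g),
      ψ (p : ZMod f)‖ ≤ (g.primeFactors.card : ℝ) := by
    refine (norm_sum_le _ _).trans ?_
    have h3 := sum_le_card_nsmul ((Icc 1 M₁).filter
      (fun b => (b.Prime ∧ M₀ < b) ∧ ¬ b.Coprime g)) (fun p => ‖ψ (p : ZMod f)‖) 1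
      (fun p _ => ψ.norm_le_one _)
    rw [nsmul_eq_mul, mul_one] at h3
    refine h3.trans ?_
    apply Nat.cast_le.2
    apply card_le_card
    intro p hp
    rw [mem_filter] at hp
    have h4 : p ∣ g := by
      by_contra hc
      exact hp.2.2 ((Nat.Prime.coprime_iff_not_dvd hp.2.1.1).2 hc)
    exact Nat.mem_primeFactors.2 ⟨hp.2.1.1, h4, hg⟩
  have h3 := char_primes M₁ f ψ hψ
  have h4 := char_primes M₀ f ψ hψ
  rw [h1]
  refine (norm_sub_le _ _).trans (add_le_add ?_ h2)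
  refine (norm_sub_le _ _).trans ?_
  rw [mul_add]
  exact add_le_add h3 h4

lemma A_be (Y g f : ℕ) (T : Finset ℕ) (ψ : DirichletCharacter ℂ f) :
    ‖BLB.A Y (BLB.res g (be T)) f ψ‖ ≤ Y := by
  unfold BLB.A
  refine (norm_sum_le _ _).trans ?_
  have h1 : ∀ b ∈ Icc 1 Y, ‖((BLB.res g (be T) b : ℝ) : ℂ) * ψ (b : ZMod f)‖ ≤ 1 := by
    intro b _
    rw [norm_mul, Complex.norm_real, Real.norm_eq_abs]
    have h2 : |BLB.res g (be T) b| ≤ 1 := by
      rw [BLB.res, be]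
      split_ifs <;> norm_num
    exact mul_le_one₀ h2 (norm_nonneg _) (ψ.norm_le_one _)
  have h2 := sum_le_card_nsmul _ _ _ h1
  rw [nsmul_eq_mul, mul_one, Nat.card_Icc] at h2
  simpa using h2

lemma P_le (M₀ M₁ Y g f : ℕ) (T : Finset ℕ) (hM : M₀ ≤ M₁) (hg : g ≠ 0) (hf : 2 ≤ f) :
    1 / (Nat.totient f : ℝ) * BLB.P M₁ Y (BLB.res g (al M₀)) (BLB.res g (be T)) f ≤
      (f * (ee M₁ f + ee M₀ f) + (g.primeFactors.card : ℝ)) * Y := by
  classical
  have : NeZero f := ⟨by omega⟩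
  have hφ : (0 : ℝ) < Nat.totient f := by exact_mod_cast Nat.totient_pos.mpr (by omega)
  have hB0 : 0 ≤ (f * (ee M₁ f + ee M₀ f) + (g.primeFactors.card : ℝ)) * Y := by
    have := ee_nonneg M₁ f
    have := ee_nonneg M₀ f
    positivity
  have h1 : ∀ ψ ∈ (univ : Finset (DirichletCharacter ℂ f)).filter (fun χ => χ.IsPrimitive),
      ‖BLB.A M₁ (BLB.res g (al M₀)) f ψ‖ * ‖BLB.A Y (BLB.res g (be T)) f ψ‖ ≤
      (f * (ee M₁ f + ee M₀ f) + (g.primeFactors.card : ℝ)) * Y := by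
    intro ψ hψ
    rw [mem_filter] at hψ
    have hψ1 : ψ ≠ 1 := by
      rintro rfl
      have h2 : (1 : DirichletCharacter ℂ f).conductor = f := hψ.2
      rw [DirichletCharacter.conductor_one] at h2
      omega
    have h3 := A_al M₀ M₁ g f hM hg ψ hψ1
    exact mul_le_mul h3 (A_be Y g f T ψ) (norm_nonneg _) ((norm_nonneg _).trans h3)
  have h2 := sum_le_card_nsmul _ _ _ h1
  rw [nsmul_eq_mul] at h2
  have h3 : (((univ : Finset (DirichletCharacter ℂ f)).filter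
      (fun χ => χ.IsPrimitive)).card : ℝ) ≤ Nat.totient f := by
    have h4 := card_filter_le (univ : Finset (DirichletCharacter ℂ f)) (fun χ => χ.IsPrimitive)
    have h5 := DirichletCharacter.card_eq_totient_of_hasEnoughRootsOfUnity ℂ f
    rw [← h5, Nat.card_eq_fintype_card]
    exact_mod_cast h4
  rw [one_div, inv_mul_le_iff₀ hφ]
  refine le_trans ?_ (mul_le_mul_of_nonneg_right h3 hB0)
  refine le_trans (le_of_eq ?_) h2
  rw [BLB.P]

end Pool.Agent.Y261.CH
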