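import Pool.Agent.Y261.CH.Blv0

/-!
Project CH, the task BLV without weights (helper261).
-/

set_option autoImplicit false

namespace Pool.Agent.Y261.CH

open Finset H343E Pool.Agent.H398R2.BV Pool.Agent.TH423.SH.PSUa Pool.Agent.Helper112

open Classical in
lemma comb (M₁ Y Q : ℕ) (α β : ℕ → ℝ) (D : Finset ℕ) (r : ℕ → ℕ)
    (hD : ∀ m ∈ D, Squarefree m ∧ m ≤ Q ∧ (r m).Coprime m) :
    ∑ m ∈ D, |∑ b ∈ Icc 1 M₁, ∑ c ∈ Icc 1 Y, α b * β c *
        ((if b * c ≡ r m [MOD m] then (1 : ℝ) else 0) -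
          (if (b * c).Coprime m then (1 : ℝ) / (Nat.totient m : ℝ) else 0))| ≤
    ∑ g ∈ Icc 1 Q, (1 / (Nat.totient g : ℝ)) * ∑ f ∈ Icc 2 Q, (1 / (Nat.totient f : ℝ)) *
      BLB.P M₁ Y (BLB.res g α) (BLB.res g β) f := by
  set G : ℕ → ℕ → ℝ := fun g f => (1 / (Nat.totient g : ℝ)) * ((1 / (Nat.totient f : ℝ)) *
    BLB.P M₁ Y (BLB.res g α) (BLB.res g β) f) with hG
  have hG0 : ∀ g f, 0 ≤ G g f := fun g f =>
    mul_nonneg (by positivity) (mul_nonneg (by positivity) (BLB.P_nonneg _ _ _ _ _))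
  have s3 : ∑ m ∈ D, |∑ b ∈ Icc 1 M₁, ∑ c ∈ Icc 1 Y, α b * β c *
        ((if b * c ≡ r m [MOD m] then (1 : ℝ) else 0) -
          (if (b * c).Coprime m then (1 : ℝ) / (Nat.totient m : ℝ) else 0))| ≤
      ∑ m ∈ D, ∑ f ∈ m.divisors.filter (fun f => f ≠ 1), G (m / f) f := by
    apply sum_le_sum
    intro m hm
    obtain ⟨hs, hle, hcop⟩ := hD m hm
    have hm0 : m ≠ 0 := hs.ne_zero
    refine (BLB.step12 M₁ Y α β m hm0 (r m) hcop).trans ?_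
    apply sum_le_sum
    intro f hf
    rw [mem_filter, Nat.mem_divisors] at hf
    obtain ⟨⟨⟨g, rfl⟩, -⟩, hf1⟩ := hf
    have hf0 : 0 < f := Nat.pos_of_ne_zero (by rintro rfl; simp at hm0)
    have hg0 : 0 < g := Nat.pos_of_ne_zero (by rintro rfl; simp at hm0)
    rw [Nat.mul_div_cancel_left g hf0]
    have hcop2 : f.Coprime g := Nat.coprime_of_squarefree_mul hs
    rw [Nat.totient_mul hcop2]
    have htf : (0:ℝ) < Nat.totient f := by exact_mod_cast Nat.totient_pos.mpr hf0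
    have htg0 : (0:ℝ) < Nat.totient g := by exact_mod_cast Nat.totient_pos.mpr hg0
    have e5 : 1 / (((Nat.totient f * Nat.totient g : ℕ) : ℝ)) =
        1 / (Nat.totient g : ℝ) * (1 / (Nat.totient f : ℝ)) := by
      push_cast
      field_simp
    rw [e5, mul_assoc]
  refine s3.trans ?_
  have s4 : ∑ m ∈ D, ∑ f ∈ m.divisors.filter (fun f => f ≠ 1), G (m / f) f ≤
      ∑ g ∈ Icc 1 Q, ∑ f ∈ Icc 2 Q, G g f := by
    rw [sum_sigma', ← sum_product']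
    have e6 : ∑ x ∈ D.sigma (fun m => m.divisors.filter (fun f => f ≠ 1)), G (x.1 / x.2) x.2 =
        ∑ p ∈ (D.sigma (fun m => m.divisors.filter (fun f => f ≠ 1))).image
          (fun x : (_ : ℕ) × ℕ => (x.1 / x.2, x.2)), G p.1 p.2 := by
      rw [sum_image]
      rintro ⟨m, f⟩ hx ⟨m', f'⟩ hx' heq
      simp only [Finset.mem_coe, mem_sigma, mem_filter, Nat.mem_divisors] at hx hx'
      simp only [Prod.mk.injEq] at heq
      obtain ⟨h7, h8⟩ := heq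
      subst h8
      have : m = m' := by
        rw [← Nat.div_mul_cancel hx.2.1.1, h7, Nat.div_mul_cancel hx'.2.1.1]
      subst this
      rfl
    rw [e6]
    apply sum_le_sum_of_subset_of_nonneg
    · intro p hp
      rw [mem_image] at hp
      obtain ⟨⟨m, f⟩, hx, rfl⟩ := hp
      simp only [mem_sigma, mem_filter, Nat.mem_divisors] at hx
      obtain ⟨hs, hle, hcop⟩ := hD m hx.1
      have hm0 : 0 < m := Nat.pos_of_ne_zero hs.ne_zero
      have hfm := hx.2.1.1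
      have hf0 : 0 < f := Nat.pos_of_dvd_of_pos hfm hm0
      simp only [mem_product, mem_Icc]
      have hf1 := hx.2.2
      refine ⟨⟨Nat.div_pos (Nat.le_of_dvd hm0 hfm) hf0, (Nat.div_le_self m f).trans hle⟩,
        by omega, (Nat.le_of_dvd hm0 hfm).trans hle⟩
    · intro p _ _
      exact hG0 _ _
  refine s4.trans (le_of_eq ?_)
  refine sum_congr rfl fun g _ => ?_
  rw [hG, ← mul_sum]

lemma sq_al (M₀ M₁ g : ℕ) :
    Real.sqrt (∑ b ∈ Icc 1 M₁, BLB.res g (al M₀) b ^ 2) ≤ Real.sqrt M₁ := by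
  apply Real.sqrt_le_sqrt
  have h1 : ∀ b ∈ Icc 1 M₁, BLB.res g (al M₀) b ^ 2 ≤ 1 := by
    intro b _
    rw [BLB.res, al]
    split_ifs <;> norm_num
  have h2 := sum_le_card_nsmul _ _ _ h1
  rw [nsmul_eq_mul, mul_one, Nat.card_Icc] at h2
  simpa using h2

lemma sq_be (T : Finset ℕ) (Y g : ℕ) :
    Real.sqrt (∑ b ∈ Icc 1 Y, BLB.res g (be T) b ^ 2) ≤ Real.sqrt Y := by
  apply Real.sqrt_le_sqrt
  have h1 : ∀ b ∈ Icc 1 Y, BLB.res g (be T) b ^ 2 ≤ 1 := by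
    intro b _
    rw [BLB.res, be]
    split_ifs <;> norm_num
  have h2 := sum_le_card_nsmul _ _ _ h1
  rw [nsmul_eq_mul, mul_one, Nat.card_Icc] at h2
  simpa using h2

lemma perg (M₀ M₁ Y Q F0 g : ℕ) (T : Finset ℕ) (hM : M₀ ≤ M₁) (hg : g ≠ 0) (hF0 : 1 ≤ F0)
    (hQ : 1 ≤ Q) (E : ℝ) (hE1 : ∑ f ∈ Icc 1 F0, ee M₁ f ≤ E)
    (hE0 : ∑ f ∈ Icc 1 F0, ee M₀ f ≤ E) :
    ∑ f ∈ Icc 2 Q, (1 / (Nat.totient f : ℝ)) *
      BLB.P M₁ Y (BLB.res g (al M₀)) (BLB.res g (be T)) f ≤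
      F0 * (2 * E + (g.primeFactors.card : ℝ)) * Y +
      12 * (1 + Real.log Q) * (Real.sqrt (M₁ * Y) / F0 + (Real.sqrt M₁ + Real.sqrt Y) + Q) *
        Real.sqrt (M₁ * Y) := by
  set h : ℕ → ℝ := fun f => (1 / (Nat.totient f : ℝ)) *
      BLB.P M₁ Y (BLB.res g (al M₀)) (BLB.res g (be T)) f with hh
  have hh0 : ∀ f, 0 ≤ h f := fun f => mul_nonneg (by positivity) (BLB.P_nonneg _ _ _ _ _)
  have hlog : 0 ≤ Real.log Q := Real.log_natCast_nonneg Q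
  have h1 : ∑ f ∈ Icc 2 Q, h f ≤ ∑ f ∈ Icc 2 F0, h f + ∑ f ∈ Icc F0 Q, h f := by
    have h2 : Icc 2 Q ⊆ Icc 2 F0 ∪ Icc F0 Q := by
      intro f hf
      rw [mem_union, mem_Icc, mem_Icc]
      rw [mem_Icc] at hf
      omega
    refine (sum_le_sum_of_subset_of_nonneg h2 fun f _ _ => hh0 f).trans ?_
    rw [← sum_union_inter]
    have : 0 ≤ ∑ f ∈ Icc 2 F0 ∩ Icc F0 Q, h f := sum_nonneg fun f _ => hh0 f
    linarith
  refine h1.trans (add_le_add ?_ ?_)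
  · have h2 : ∀ f ∈ Icc 2 F0, h f ≤ (F0 * (ee M₁ f + ee M₀ f) + (g.primeFactors.card : ℝ)) * Y := by
      intro f hf
      rw [mem_Icc] at hf
      refine (P_le M₀ M₁ Y g f T hM hg hf.1).trans ?_
      have e1 := ee_nonneg M₁ f
      have e2 := ee_nonneg M₀ f
      have e3 : (f : ℝ) ≤ F0 := by exact_mod_cast hf.2
      gcongr
    refine (sum_le_sum h2).trans ?_
    rw [← sum_mul]
    apply mul_le_mul_of_nonneg_right _ (Nat.cast_nonneg Y)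
    rw [sum_add_distrib, ← mul_sum, sum_add_distrib, sum_const, nsmul_eq_mul, Nat.card_Icc]
    have e0 : ∀ u : ℕ, ∑ f ∈ Icc 2 F0, ee u f ≤ ∑ f ∈ Icc 1 F0, ee u f := fun u =>
      sum_le_sum_of_subset_of_nonneg (Icc_subset_Icc_left (by norm_num)) fun f _ _ => ee_nonneg u f
    have e1 := (e0 M₁).trans hE1
    have e2 := (e0 M₀).trans hE0
    have e3 : ((F0 + 1 - 2 : ℕ) : ℝ) ≤ F0 := by exact_mod_cast (by omega : F0 + 1 - 2 ≤ F0)
    have e4 : (0 : ℝ) ≤ g.primeFactors.card := Nat.cast_nonneg _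
    have e5 : (F0 : ℝ) * (∑ f ∈ Icc 2 F0, ee M₁ f + ∑ f ∈ Icc 2 F0, ee M₀ f) ≤ F0 * (2 * E) :=
      mul_le_mul_of_nonneg_left (by linarith) (Nat.cast_nonneg _)
    have e6 := mul_le_mul_of_nonneg_right e3 e4
    have e7 := add_le_add e5 e6
    refine e7.trans (le_of_eq ?_)
    ring
  · refine (BLB.step45 M₁ Y _ _ F0 Q hF0 hQ).trans ?_
    rw [Real.sqrt_mul (Nat.cast_nonneg M₁)]
    apply mul_le_mul_of_nonneg_left _ (by positivity)
    exact mul_le_mul (sq_al M₀ M₁ g) (sq_be T Y g) (Real.sqrt_nonneg _) (Real.sqrt_nonneg _)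

/-- the error -/
noncomputable def EP (M₀ M₁ : ℕ) (T : Finset ℕ) (r d : ℕ) : ℝ :=
  |NN M₀ M₁ T r d - ((PP M₀ M₁).card : ℝ) * T.card / (Nat.totient d : ℝ)|

lemma EP_nonneg (M₀ M₁ : ℕ) (T : Finset ℕ) (r d : ℕ) : 0 ≤ EP M₀ M₁ T r d := abs_nonneg _

lemma EP_le (M₀ M₁ Y : ℕ) (T : Finset ℕ) (hT : ∀ n ∈ T, 1 ≤ n ∧ n ≤ Y) (r d : ℕ) (hd : 1 ≤ d)
    (hr : r.Coprime d) : EP M₀ M₁ T r d ≤ 2 * (M₁ * Y) / (Nat.totient d : ℝ) + M₁ := by
  have hφ : (0 : ℝ) < Nat.totient d := by exact_mod_cast Nat.totient_pos.mpr (by omega)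
  have hφd : (Nat.totient d : ℝ) ≤ d := by exact_mod_cast Nat.totient_le d
  have h1 := NN_le M₀ M₁ Y T hT r d hd hr
  have h0 : 0 ≤ NN M₀ M₁ T r d := by
    rw [← NN_card]
    exact Nat.cast_nonneg _
  have h2 : ((PP M₀ M₁).card : ℝ) * T.card ≤ M₁ * Y :=
    mul_le_mul (PP_card M₀ M₁) (T_card Y T hT) (Nat.cast_nonneg _) (Nat.cast_nonneg _)
  have h3 : ((PP M₀ M₁).card : ℝ) * T.card / (Nat.totient d : ℝ) ≤ M₁ * Y / (Nat.totient d : ℝ) :=
    div_le_div_of_nonneg_right h2 hφ.le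
  have h4 : 0 ≤ ((PP M₀ M₁).card : ℝ) * T.card / (Nat.totient d : ℝ) := by positivity
  have h5 : (M₁ : ℝ) * ((Y : ℝ) / d + 1) ≤ M₁ * Y / (Nat.totient d : ℝ) + M₁ := by
    have h6 : (M₁ : ℝ) * Y / d ≤ M₁ * Y / (Nat.totient d : ℝ) :=
      div_le_div_of_nonneg_left (by positivity) hφ hφd
    have h7 : (M₁ : ℝ) * ((Y : ℝ) / d + 1) = M₁ * Y / d + M₁ := by ring
    rw [h7]
    linarith
  have h8 : 2 * ((M₁ : ℝ) * Y) / (Nat.totient d : ℝ) =
      M₁ * Y / (Nat.totient d : ℝ) + M₁ * Y / (Nat.totient d : ℝ) := by ring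
  have h9 : 0 ≤ (M₁ : ℝ) * Y / (Nat.totient d : ℝ) := by positivity
  have h10 : (0 : ℝ) ≤ M₁ := Nat.cast_nonneg _
  unfold EP
  rw [h8, abs_le]
  constructor <;> linarith

open Classical in
lemma EP_E (M₀ M₁ Y : ℕ) (T : Finset ℕ) (hT : ∀ n ∈ T, 1 ≤ n ∧ n ≤ Y) (r d : ℕ) :
    EP M₀ M₁ T r d ≤ |∑ b ∈ Icc 1 M₁, ∑ c ∈ Icc 1 Y, al M₀ b * be T c *
        ((if b * c ≡ r [MOD d] then (1 : ℝ) else 0) -
          (if (b * c).Coprime d then (1 : ℝ) / (Nat.totient d : ℝ) else 0))| +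
      1 / (Nat.totient d : ℝ) * BB M₀ M₁ T d := by
  rw [sum_ab M₀ M₁ Y T hT (fun b c => (if b * c ≡ r [MOD d] then (1 : ℝ) else 0) -
          (if (b * c).Coprime d then (1 : ℝ) / (Nat.totient d : ℝ) else 0))]
  have h1 : ∑ b ∈ PP M₀ M₁, ∑ c ∈ T, ((if b * c ≡ r [MOD d] then (1 : ℝ) else 0) -
          (if (b * c).Coprime d then (1 : ℝ) / (Nat.totient d : ℝ) else 0)) =
      NN M₀ M₁ T r d - ((PP M₀ M₁).card : ℝ) * T.card / (Nat.totient d : ℝ) +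
        1 / (Nat.totient d : ℝ) * BB M₀ M₁ T d := by
    have h2 : ((PP M₀ M₁).card : ℝ) * T.card / (Nat.totient d : ℝ) =
        ∑ b ∈ PP M₀ M₁, ∑ c ∈ T, 1 / (Nat.totient d : ℝ) := by
      rw [sum_const, sum_const, nsmul_eq_mul, nsmul_eq_mul]
      ring
    rw [h2, NN, BB, mul_sum, ← sum_sub_distrib, ← sum_add_distrib]
    refine sum_congr rfl fun b _ => ?_
    rw [mul_sum, ← sum_sub_distrib, ← sum_add_distrib]
    refine sum_congr rfl fun c _ => ?_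
    by_cases h3 : (b * c).Coprime d
    · rw [if_pos h3, if_pos h3]
      by_cases h4 : b * c ≡ r [MOD d]
      · rw [if_pos h4]
        ring
      · rw [if_neg h4]
        ring
    · rw [if_neg h3, if_neg h3]
      by_cases h4 : b * c ≡ r [MOD d]
      · rw [if_pos h4]
        ring
      · rw [if_neg h4]
        ring
  have hB0 : 0 ≤ BB M₀ M₁ T d := by
    rw [BB]
    exact sum_nonneg fun b _ => sum_nonneg fun c _ => by split_ifs <;> norm_num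
  have h5 : 0 ≤ 1 / (Nat.totient d : ℝ) * BB M₀ M₁ T d := mul_nonneg (by positivity) hB0
  rw [h1]
  unfold EP
  have h6 := abs_sub (NN M₀ M₁ T r d - ((PP M₀ M₁).card : ℝ) * T.card / (Nat.totient d : ℝ) +
        1 / (Nat.totient d : ℝ) * BB M₀ M₁ T d) (1 / (Nat.totient d : ℝ) * BB M₀ M₁ T d)
  rw [add_sub_cancel_right, abs_of_nonneg h5] at h6
  exact h6

lemma arithB {L x Z y a b Tot : ℝ} {K V C : ℕ} (hL : 0 < L) (hx : 0 ≤ x) (hZ : 0 ≤ Z)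
    (hyZ : y * Z = x) (hy : 2 ^ K * b * L ^ (K + C + V + 2) ≤ y) (hLa : 2 ^ K * a + 1 ≤ L)
    (hT : Tot ≤ (2 * L) ^ K * (a * x / L ^ (K + V + 1) + b * L ^ (C + 1) * Z)) :
    Tot ≤ x / L ^ V := by
  refine hT.trans ?_
  rw [le_div_iff₀ (by positivity)]
  have e1 : (2 * L) ^ K * (a * x / L ^ (K + V + 1) + b * L ^ (C + 1) * Z) * L ^ V * L =
      2 ^ K * a * x + 2 ^ K * b * L ^ (K + C + V + 2) * Z := by
    have e2 : L ^ (K + V + 1) = L ^ K * L ^ V * L := by ring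
    have e3 : L ^ (K + C + V + 2) = L ^ K * L ^ (C + 1) * L ^ V * L := by ring
    rw [e2, e3, mul_pow]
    field_simp
  have e4 : 2 ^ K * b * L ^ (K + C + V + 2) * Z ≤ x := by
    rw [← hyZ]
    exact mul_le_mul_of_nonneg_right hy hZ
  have e5 : (2 * L) ^ K * (a * x / L ^ (K + V + 1) + b * L ^ (C + 1) * Z) * L ^ V * L ≤ x * L := by
    rw [e1]
    have e6 : (2 ^ K * a + 1) * x ≤ L * x := mul_le_mul_of_nonneg_right hLa hx
    linarith
  exact le_of_mul_le_mul_right e5 hL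

end Pool.Agent.Y261.CH
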