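import Pool.Agent.Y675.TC.Core

/-!
Project CH (helper843), task CORE: auxiliary lemmas.
-/

set_option autoImplicit false

namespace Pool.Agent.Y261.CH

open Finset Filter Pool.Agent.W23.DC Pool.Agent.Y660.RP

open Classical in
theorem fundK (κ : ℕ) : ∃ C0 : ℕ, 1 ≤ C0 ∧ ∀ (b J z : ℕ) (P : Finset ℕ) (g : ℕ → ℝ), C0 ≤ b → C0 ≤ z →
    (∀ p ∈ P, p.Prime ∧ z < p ∧ p ≤ 2 ^ 2 ^ J) →
    (∀ p ∈ P, 0 ≤ g p ∧ g p ≤ κ / ((p : ℝ) - 1)) →
    ∀ (ι : Type) (Ω : Finset ι) (v : ι → ℕ) (A : ℝ) (e : ℕ), 0 ≤ A → 0 ≤ gp g e →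
    (∀ p ∈ P, ¬ p ∣ e) →
    |(((Ω.filter (fun i => ∀ p ∈ P, ¬ p ∣ v i)).filter (fun i => e ∣ v i)).card : ℝ) -
      A * gp g e * ∏ p ∈ P, (1 - g p)| ≤
      (1 / 2 : ℝ) ^ b * (A * gp g e * ∏ p ∈ P, (1 - g p)) +
        ((J : ℝ) + 2) * ∑ T ∈ P.powerset.filter
          (fun T : Finset ℕ => ∏ p ∈ T, p ≤ (2 ^ 2 ^ J) ^ (C0 * b)),
          Rr Ω v g A (e * ∏ p ∈ T, p) := by
  obtain ⟨C0, h1, h⟩ := Pool.Agent.H20R2.fLem κ
  refine ⟨C0, h1, ?_⟩
  intro b J z P g hb hz hP hg ι Ω v A e hA hge hPe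
  have key := h b J z P g hb hz hP hg ((Ω.filter (fun i => e ∣ v i)).image v)
    (fun m => (((Ω.filter (fun i => e ∣ v i)).filter (fun i => v i = m)).card : ℝ))
    (fun p m => p ∣ m) (A * gp g e) (fun T => Rr Ω v g A (e * ∏ p ∈ T, p))
    (fun m _ => Nat.cast_nonneg _) (by positivity) (by
      intro T hT _
      rw [sum_fib]
      unfold Rr
      have hc := cop_prod (fun p hp => (hP p hp).1) hT hPe
      have hTp : ∀ p ∈ T, p.Prime := fun p hp => (hP p (hT hp)).1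
      rw [gp_mul g hc, gp_prod g T hTp, ← mul_assoc]
      apply le_of_eq
      congr 3
      rw [Finset.filter_filter]
      congr 1
      ext i
      simp only [mem_filter]
      rw [mul_dvd_iff_and hc, prod_dvd hTp])
  rw [sum_fib] at key
  rw [Finset.filter_filter] at key ⊢
  convert key using 6
  exact and_comm

theorem exb' (C0 : ℕ) (hC : 1 ≤ C0) (η : ℝ) (hη : 0 < η) : ∃ b : ℕ, C0 ≤ b ∧
    (1 / 2 : ℝ) ^ b ≤ (1 / (2000 * C0 * b)) ^ 2 * (η / 16) := by
  have h := tendsto_pow_const_mul_const_pow_of_abs_lt_one 2 (r := (1 / 2 : ℝ))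
    (by rw [abs_of_pos (by norm_num)]; norm_num)
  have hc : (0 : ℝ) < (1 / (2000 * C0)) ^ 2 * (η / 16) := by
    have : (0 : ℝ) < C0 := by exact_mod_cast hC
    positivity
  obtain ⟨b, hb1, hb2⟩ := ((h.eventually_lt_const hc).and (eventually_ge_atTop C0)).exists
  refine ⟨b, hb2, ?_⟩
  have hb0 : (0 : ℝ) < b := by exact_mod_cast (by omega : 0 < b)
  have hC0 : (0 : ℝ) < C0 := by exact_mod_cast hC
  have e1 : (1 / (2000 * (C0 : ℝ) * b)) ^ 2 * (η / 16) =
      ((1 / (2000 * C0)) ^ 2 * (η / 16)) / (b : ℝ) ^ 2 := by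
    field_simp
  rw [e1, le_div_iff₀ (by positivity)]
  linarith

theorem exJ' (ε : ℝ) (hε : 0 < ε) (hε1 : ε ≤ 1) (n : ℕ) (hn : 2 * ε * n ≤ 1 / 1000) :
    ∃ N₀ : ℕ, ∀ N : ℕ, N₀ ≤ N → ∃ J : ℕ,
      (∀ p : ℕ, (p : ℝ) < (N : ℝ) ^ ε → p ≤ 2 ^ 2 ^ J) ∧
      (((2 ^ 2 ^ J) ^ n : ℕ) : ℝ) ≤ (N : ℝ) ^ (1 / 1000 : ℝ) ∧ 2 * ((J : ℝ) + 2) ≤ Real.log N := by
  classical
  obtain ⟨N₁, h1⟩ := ev_rpow ε hε 2
  obtain ⟨N₂, h2⟩ := ev_log 16
  refine ⟨max (max N₁ N₂) 2, fun N hN => ?_⟩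
  have hNN₁ : N₁ ≤ N := ((le_max_left _ _).trans (le_max_left _ _)).trans hN
  have hNN₂ : N₂ ≤ N := ((le_max_right _ _).trans (le_max_left _ _)).trans hN
  have hN2 : 2 ≤ N := (le_max_right _ _).trans hN
  have hy := h1 N hNN₁
  have hl := h2 N hNN₂
  have hNr : (1 : ℝ) ≤ N := by exact_mod_cast (by omega : 1 ≤ N)
  set y : ℝ := (N : ℝ) ^ ε with hyd
  have hex : ∃ J : ℕ, y ≤ (2 : ℝ) ^ (2 ^ J) := by
    obtain ⟨m, hm⟩ := pow_unbounded_of_one_lt y (one_lt_two : (1 : ℝ) < 2)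
    refine ⟨m, hm.le.trans ?_⟩
    exact pow_le_pow_right₀ (by norm_num) (Nat.lt_two_pow_self).le
  have hJ := Nat.find_spec hex
  rcases hJ0 : Nat.find hex with _ | j
  · rw [hJ0] at hJ
    norm_num at hJ
    linarith
  · have hj : (2 : ℝ) ^ (2 ^ j) < y := by
      have := Nat.find_min hex (show j < Nat.find hex by omega)
      exact not_le.1 this
    rw [hJ0] at hJ
    refine ⟨j + 1, ?_, ?_, ?_⟩
    · intro p hp
      have : (p : ℝ) ≤ ((2 ^ 2 ^ (j + 1) : ℕ) : ℝ) := by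
        push_cast
        linarith
      exact_mod_cast this
    · have e1 : (2 : ℝ) ^ (2 ^ (j + 1)) = ((2 : ℝ) ^ (2 ^ j)) ^ 2 := by
        rw [← pow_mul]
        congr 1
      have e2 : (2 : ℝ) ^ (2 ^ (j + 1)) ≤ y ^ 2 := by
        rw [e1]
        exact pow_le_pow_left₀ (by positivity) hj.le 2
      push_cast
      calc ((2 : ℝ) ^ (2 ^ (j + 1))) ^ n ≤ (y ^ 2) ^ n := pow_le_pow_left₀ (by positivity) e2 n
        _ = (N : ℝ) ^ (2 * ε * n) := by
          rw [hyd, ← Real.rpow_natCast, ← Real.rpow_natCast, ← Real.rpow_mul (by linarith),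
            ← Real.rpow_mul (by linarith)]
          congr 1
          push_cast
          ring
        _ ≤ (N : ℝ) ^ (1 / 1000 : ℝ) := Real.rpow_le_rpow_of_exponent_le hNr hn
    · have e1 : (2 : ℝ) ^ j * Real.log 2 < ε * Real.log N := by
        have := Real.log_lt_log (by positivity) hj
        rw [Real.log_pow, hyd, Real.log_rpow (by linarith)] at this
        push_cast at this
        exact this
      have e2 : ε * Real.log N ≤ Real.log N := by nlinarith
      have e3 : (2 : ℝ) ^ j < 2 * Real.log N := by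
        have := Real.log_two_gt_d9
        have h3 : (0 : ℝ) < 2 ^ j := by positivity
        nlinarith
      rcases lt_or_ge j 5 with h5 | h5
      · have : (j : ℝ) ≤ 4 := by exact_mod_cast (by omega : j ≤ 4)
        push_cast
        linarith
      · have e4 : 4 * (j + 3) ≤ 2 ^ j := by
          clear hJ0 hj e1 e2 e3 hJ
          induction j, h5 using Nat.le_induction with
          | base => norm_num
          | succ k hk ih =>
            rw [pow_succ]
            omega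
        have e5 : (4 : ℝ) * (j + 3) ≤ 2 ^ j := by exact_mod_cast e4
        push_cast
        linarith

/-- Mertens for the densities which are `1 / (p - 1)` or `0` if `p ∣ h`. -/
theorem mergh (w ε η : ℝ) (hw : w ≤ 1) (hε : 0 < ε) (hη : 0 < η) : ∃ N₀ : ℕ, ∀ N : ℕ, N₀ ≤ N →
    ∀ (g : ℕ → ℝ) (h : ℕ), h ≠ 0 → h ≤ N ^ 3 →
      (∀ p : ℕ, p.Prime → (N : ℝ) ^ ε ≤ (p : ℝ) → g p = if p ∣ h then 0 else 1 / ((p : ℝ) - 1)) →
      Mer (pr N ε w) (tt N) g ε w η := by
  classical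
  obtain ⟨N₁, h1⟩ := mer_of Pool.Agent.W378.DC.MP ε w (η / 2) hε hw (by positivity)
  obtain ⟨N₂, h2⟩ := ev_rpow ε hε (1 + 6 / (ε * η))
  refine ⟨max (max N₁ N₂) 2, fun N hN g S hS0 hSN hg a b ha hab hb => ?_⟩
  have hNN₁ : N₁ ≤ N := ((le_max_left _ _).trans (le_max_left _ _)).trans hN
  have hNN₂ : N₂ ≤ N := ((le_max_right _ _).trans (le_max_left _ _)).trans hN
  have hN2 : 2 ≤ N := (le_max_right _ _).trans hN
  have h3 := h1 N hNN₁ a b ha hab hb
  have hy2 := h2 N hNN₂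
  set y : ℝ := (N : ℝ) ^ ε with hyd
  have hpos : 0 < 6 / (ε * η) := by positivity
  have hy1 : 0 < y - 1 := by linarith
  have hNr : (1 : ℝ) < N := by exact_mod_cast (by omega : 1 < N)
  -- primes of `pr` are large
  have hbig : ∀ p ∈ pr N ε w, y ≤ p := fun p hp =>
    (le_tt_iff hN2 (mem_pr.1 hp).2.1 _).1 (mem_pr.1 hp).2.2.1
  set F := (pr N ε w).filter (fun p => a ≤ tt N p ∧ tt N p < b) with hF
  set T := (pr N ε w).filter (fun p => p ∣ S) with hT
  have hTp : ∀ p ∈ T, p.Prime := fun p hp => (mem_pr.1 (mem_filter.1 hp).1).2.1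
  have hcard : (T.card : ℝ) * ε ≤ 3 := by
    have e1 : ∏ p ∈ T, p ≤ N ^ 3 :=
      (Nat.le_of_dvd (Nat.pos_of_ne_zero hS0) ((prod_dvd hTp S).2 fun p hp =>
        (mem_filter.1 hp).2)).trans hSN
    have e2 : y ^ T.card ≤ ((∏ p ∈ T, p : ℕ) : ℝ) := by
      push_cast
      rw [← Finset.prod_const]
      apply Finset.prod_le_prod
      · intro p _
        linarith
      · intro p hp
        exact hbig p (mem_filter.1 hp).1
    have e3 : y ^ T.card ≤ (N : ℝ) ^ 3 := e2.trans (by exact_mod_cast e1)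
    have e4 : (N : ℝ) ^ (ε * T.card) ≤ (N : ℝ) ^ (3 : ℝ) := by
      rw [Real.rpow_mul (by linarith), Real.rpow_natCast]
      have e5 : (N : ℝ) ^ (3 : ℝ) = (N : ℝ) ^ 3 := by
        rw [← Real.rpow_natCast]
        norm_num
      rw [e5]
      exact e3
    have e5 := (Real.rpow_le_rpow_left_iff hNr).1 e4
    linarith
  have hdiff : |∑ p ∈ F, g p - ∑ p ∈ F, 1 / ((p : ℝ) - 1)| ≤ η / 2 := by
    rw [← Finset.sum_sub_distrib]
    refine (Finset.abs_sum_le_sum_abs _ _).trans ?_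
    have e1 : ∀ p ∈ F, |g p - 1 / ((p : ℝ) - 1)| ≤ if p ∣ S then 1 / (y - 1) else 0 := by
      intro p hp
      have hp' := (mem_filter.1 hp).1
      have h6 := hbig p hp'
      have hgp := hg p (mem_pr.1 hp').2.1 h6
      split_ifs at hgp ⊢ with h
      · have h7 : 1 / ((p : ℝ) - 1) ≤ 1 / (y - 1) := by
          apply one_div_le_one_div_of_le hy1
          linarith
        have h8 : 0 ≤ 1 / ((p : ℝ) - 1) := by
          have : 0 < (p : ℝ) - 1 := by linarith
          positivity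
        rw [hgp, zero_sub, abs_neg, abs_of_nonneg h8]
        exact h7
      · rw [hgp, sub_self, abs_zero]
    refine (Finset.sum_le_sum e1).trans ?_
    have e2 : ∑ p ∈ F, (if p ∣ S then 1 / (y - 1) else 0) ≤
        ∑ p ∈ pr N ε w, (if p ∣ S then 1 / (y - 1) else 0) := by
      apply Finset.sum_le_sum_of_subset_of_nonneg (filter_subset _ _)
      intro p _ _
      split_ifs
      · positivity
      · exact le_rfl
    refine e2.trans ?_
    rw [← Finset.sum_filter, Finset.sum_const, nsmul_eq_mul]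
    have e3 : (6 / (ε * η)) < y - 1 := by linarith
    have e4 : 1 / (y - 1) ≤ ε * η / 6 := by
      rw [div_le_iff₀ hy1]
      rw [div_lt_iff₀ (by positivity)] at e3
      linarith
    have e5 : (0 : ℝ) ≤ T.card := Nat.cast_nonneg _
    calc (T.card : ℝ) * (1 / (y - 1)) ≤ T.card * (ε * η / 6) := by gcongr
      _ = (T.card * ε) * (η / 6) := by ring
      _ ≤ 3 * (η / 6) := by gcongr
      _ = η / 2 := by ring
  have h9 : ∑ p ∈ F, g p - Real.log (b / a) =
      (∑ p ∈ F, g p - ∑ p ∈ F, 1 / ((p : ℝ) - 1)) +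
        (∑ p ∈ F, 1 / ((p : ℝ) - 1) - Real.log (b / a)) := by ring
  rw [h9]
  calc _ ≤ |∑ p ∈ F, g p - ∑ p ∈ F, 1 / ((p : ℝ) - 1)| +
        |∑ p ∈ F, 1 / ((p : ℝ) - 1) - Real.log (b / a)| := abs_add_le _ _
    _ ≤ η / 2 + η / 2 := add_le_add hdiff h3
    _ = η := by ring

theorem prod_le' {N : ℕ} {ε η w : ℝ} (hε : 0 < ε) (hεw : ε ≤ w) (hw : w ≤ 7 / 20) (hη : η ≤ 1)
    (g : ℕ → ℝ) (hg : ∀ p ∈ pr N ε w, 0 ≤ g p) (h : Mer (pr N ε w) (tt N) g ε w η) :
    ∏ p ∈ pr N ε w, (1 + g p) ≤ 1 / ε := by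
  classical
  have hw0 : 0 < w := hε.trans_le hεw
  have h1 := h ε w le_rfl hεw le_rfl
  rw [pr_sub N ε w ε w le_rfl le_rfl] at h1
  have h2 := (abs_le.1 h1).2
  have h3 : ∏ p ∈ pr N ε w, (1 + g p) ≤ Real.exp (∑ p ∈ pr N ε w, g p) := by
    rw [Real.exp_sum]
    apply Finset.prod_le_prod
    · intro p hp
      linarith [hg p hp]
    · intro p _
      have := Real.add_one_le_exp (g p)
      linarith
  refine h3.trans ?_
  calc Real.exp (∑ p ∈ pr N ε w, g p) ≤ Real.exp (Real.log (w / ε) + 1) := by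
        apply Real.exp_le_exp.2
        linarith
    _ = w / ε * Real.exp 1 := by
        rw [Real.exp_add, Real.exp_log (by positivity)]
    _ ≤ (7 / 20) / ε * (20 / 7) := by
        have := Real.exp_one_lt_d9
        gcongr
        linarith
    _ = 1 / ε := by
        field_simp

/-- the integral -/
theorem intg : ∫ x in (1 / 4 : ℝ)..(667 / 1000), (1 / (998 / 1000 - x)) / x =
    1000 / 998 * Real.log (667 * 748 / (331 * 250)) := by
  have h1 : ∀ x ∈ Set.uIcc (1 / 4 : ℝ) (667 / 1000),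
      HasDerivAt (fun x => 1000 / 998 * (Real.log x - Real.log (998 / 1000 - x)))
        ((1 / (998 / 1000 - x)) / x) x := by
    intro x hx
    rw [Set.uIcc_of_le (by norm_num)] at hx
    have hx0 : x ≠ 0 := by
      intro h
      rw [h] at hx
      linarith [hx.1]
    have hx1 : 998 / 1000 - x ≠ 0 := by
      intro h
      linarith [hx.2]
    have h2 := ((Real.hasDerivAt_log hx0).sub
      (((hasDerivAt_const x (998 / 1000 : ℝ)).sub (hasDerivAt_id x)).log hx1)).const_mul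
        (1000 / 998 : ℝ)
    have h3 : HasDerivAt (fun x => 1000 / 998 * (Real.log x - Real.log (998 / 1000 - x)))
        (1000 / 998 * (x⁻¹ - (0 - 1) / (998 / 1000 - x))) x := h2
    refine h3.congr_deriv ?_
    rw [zero_sub, neg_div, sub_neg_eq_add, inv_eq_one_div, div_add_div _ _ hx0 hx1, div_div,
      div_mul_div_comm, div_eq_div_iff (mul_ne_zero (by norm_num) (mul_ne_zero hx0 hx1))
        (mul_ne_zero hx1 hx0)]
    ring
  rw [intervalIntegral.integral_eq_sub_of_hasDerivAt h1]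
  · have e1 : (998 / 1000 - 667 / 1000 : ℝ) = 331 / 1000 := by norm_num
    have e2 : (998 / 1000 - 1 / 4 : ℝ) = 748 / 1000 := by norm_num
    rw [e1, e2, ← mul_sub, ← Real.log_div (by norm_num) (by norm_num),
      ← Real.log_div (by norm_num) (by norm_num), ← Real.log_div (by norm_num) (by norm_num)]
    norm_num
  · apply ContinuousOn.intervalIntegrable
    intro x hx
    rw [Set.uIcc_of_le (by norm_num)] at hx
    have hx0 : x ≠ 0 := by
      intro h
      rw [h] at hx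
      linarith [hx.1]
    have hx1 : 998 / 1000 - x ≠ 0 := by
      intro h
      linarith [hx.2]
    apply ContinuousAt.continuousWithinAt
    fun_prop (disch := assumption)

/-- the sum over the middle primes -/
theorem part' (η₂ : ℝ) (hη : 0 < η₂) :
    ∃ N₀ : ℕ, ∀ N : ℕ, N₀ ≤ N →
      ∑ q ∈ pr N (1 / 4) (667 / 1000), 1 / ((q : ℝ) - 1) * (1 / (998 / 1000 - tt N q)) ≤
      1000 / 998 * Real.log (667 * 748 / (331 * 250)) + η₂ := by
  set h : ℝ → ℝ := fun x => 1 / (998 / 1000 - x) with hh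
  have hc : ContinuousOn h (Set.Icc (1 / 4) (667 / 1000)) := by
    apply ContinuousOn.div
    · fun_prop
    · fun_prop
    · intro x hx
      have := hx.2
      linarith
  obtain ⟨H, hH⟩ := isCompact_Icc.exists_bound_of_continuousOn hc
  have hu := isCompact_Icc.uniformContinuousOn_of_continuous hc
  set κ : ℝ := η₂ / (2 * Real.log (1 / (1 / 4)) + 2) with hκ
  have hlog : 0 < Real.log (1 / (1 / 4)) := Real.log_pos (by norm_num)
  have hκ0 : 0 < κ := by positivity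
  rw [Metric.uniformContinuousOn_iff] at hu
  obtain ⟨ρ, hρ, hu⟩ := hu κ hκ0
  obtain ⟨η, hη0, HH⟩ := Pool.Agent.W505.DC.MI (1 / 4) (ρ / 2) κ (max H 1) (by norm_num)
    (by norm_num) (by positivity) hκ0 (by positivity)
  obtain ⟨N₀, hN₀⟩ := mer_of Pool.Agent.W378.DC.MP (1 / 4) (667 / 1000) η (by norm_num)
    (by norm_num) hη0
  refine ⟨N₀, fun N hN => ?_⟩
  have key := HH (pr N (1 / 4) (667 / 1000)) (tt N) (fun p => 1 / ((p : ℝ) - 1)) (667 / 1000)
    (by norm_num) g_nonneg (hN₀ N hN) (1 / 4) (667 / 1000) h le_rfl (by norm_num) le_rfl hc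
    (fun x hx => (hH x hx).trans (le_max_left _ _))
    (fun x hx y hy hxy => by
      have h1 := hu x hx y hy (by
        rw [Real.dist_eq]
        linarith)
      rw [Real.dist_eq] at h1
      exact h1.le)
  rw [pr_sub N (1 / 4) (667 / 1000) (1 / 4) (667 / 1000) le_rfl le_rfl] at key
  have e1 : κ * (2 * Real.log (1 / (1 / 4)) + 2) = η₂ := by
    rw [hκ]
    field_simp
  rw [e1] at key
  have e2 : ∫ x in (1 / 4 : ℝ)..(667 / 1000), h x / x =
      1000 / 998 * Real.log (667 * 748 / (331 * 250)) := by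
    rw [← intg]
  rw [e2] at key
  have := (abs_le.1 key).2
  simp only [hh] at this
  linarith

theorem middle' (η : ℝ) (hη : 0 < η) : ∃ N₀ : ℕ, ∀ N : ℕ, N₀ ≤ N →
    ∑ q ∈ pr N (1 / 4) (667 / 1000), 1 / ((q : ℝ) - 1) ≤ Real.log (667 / 250) + η := by
  obtain ⟨N₁, h1⟩ := Pool.Agent.W378.DC.MP (1 / 4) η (by norm_num) hη
  refine ⟨N₁, fun N hN => ?_⟩
  have h3 := (abs_le.1 (h1 N hN (1 / 4) (667 / 1000) le_rfl (by norm_num) (by norm_num))).2
  have h6 : (667 / 1000 / (1 / 4) : ℝ) = 667 / 250 := by norm_num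
  rw [h6] at h3
  linarith

theorem log_667 : Real.log (667 / 250) ≤ 1 := by
  rw [Real.log_le_iff_le_exp (by norm_num)]
  have h3 := Real.exp_one_gt_d9
  linarith

/-- pointwise upper bound -/
theorem ind_le (N : ℕ) (hN : 2 ≤ N) (ε w : ℝ) (K n : ℕ) (τ : ℝ) :
    (open Classical in if ∀ p ∈ pr N ε w, ¬ p ∣ n then (1 : ℝ) else 0) ≤
      LL (pr N ε w) (tt N) (ind n) K true τ w 1 := by
  classical
  have hS := siz hN ε w
  have h1 := (Pool.Agent.W52.DC.PT (pr N ε w) (tt N) hS n K τ w 1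
    (fun p hp _ h => (hS.pr p hp).one_lt.ne' (Nat.dvd_one.1 h))).1
  refine le_trans ?_ h1
  split_ifs with h2 h3 h3
  · exact le_rfl
  · exact absurd ⟨one_dvd n, fun p hp _ => h2 p hp⟩ h3
  · norm_num
  · exact le_rfl

/-- pointwise lower bound -/
theorem II_ge' (N : ℕ) (hN : 2 ≤ N) (ε : ℝ) (K n : ℕ) :
    LL (pr N ε (1 / 4)) (tt N) (ind n) K false (998 / 1000) (1 / 4) 1 -
      ∑ q ∈ pr N (1 / 4) (667 / 1000), 1 / 2 *
        LL (pr N ε (1 / 4)) (tt N) (ind n) K true (998 / 1000 - tt N q) (1 / 4) q ≤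
      II N ε n * (1 - 1 / 2 * ∑ q ∈ pr N (1 / 4) (667 / 1000), (if q ∣ n then 1 else 0)) := by
  classical
  have hS := siz hN ε (1 / 4)
  have h1 := (Pool.Agent.W52.DC.PT (pr N ε (1 / 4)) (tt N) hS n K (998 / 1000) (1 / 4) 1
    (fun p hp _ h => (hS.pr p hp).one_lt.ne' (Nat.dvd_one.1 h))).2
  have h2 : ∀ q ∈ pr N (1 / 4) (667 / 1000),
      II N ε n * (if q ∣ n then 1 else 0) ≤
      LL (pr N ε (1 / 4)) (tt N) (ind n) K true (998 / 1000 - tt N q) (1 / 4) q := by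
    intro q hq
    have h3 := (Pool.Agent.W52.DC.PT (pr N ε (1 / 4)) (tt N) hS n K (998 / 1000 - tt N q) (1 / 4) q
      (fun p hp _ h => by
      have h4 := (Nat.prime_dvd_prime_iff_eq (hS.pr p hp) (mem_pr.1 hq).2.1).1 h
      have h5 := (mem_pr.1 hp).2.2.2
      have h6 := (mem_pr.1 hq).2.2.1
      rw [h4] at h5
      linarith)).1
    refine le_trans ?_ h3
    unfold II
    by_cases h7 : ∀ p ∈ pr N ε (1 / 4), ¬ p ∣ n
    · by_cases h8 : q ∣ n
      · rw [if_pos h7, if_pos h8, if_pos ⟨h8, fun p hp _ => h7 p hp⟩, one_mul]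
      · rw [if_neg h8, mul_zero]
        split_ifs <;> norm_num
    · rw [if_neg h7, zero_mul]
      split_ifs <;> norm_num
  have h9 : LL (pr N ε (1 / 4)) (tt N) (ind n) K false (998 / 1000) (1 / 4) 1 ≤ II N ε n := by
    refine h1.trans ?_
    unfold II
    by_cases h7 : ∀ p ∈ pr N ε (1 / 4), ¬ p ∣ n
    · rw [if_pos h7]
      split_ifs <;> norm_num
    · rw [if_neg h7, if_neg]
      rintro ⟨-, h8⟩
      exact h7 (fun p hp => h8 p hp (mem_pr.1 hp).2.2.2)
  have h10 : ∑ q ∈ pr N (1 / 4) (667 / 1000), 1 / 2 * (II N ε n * (if q ∣ n then 1 else 0)) ≤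
      ∑ q ∈ pr N (1 / 4) (667 / 1000), 1 / 2 *
        LL (pr N ε (1 / 4)) (tt N) (ind n) K true (998 / 1000 - tt N q) (1 / 4) q :=
    Finset.sum_le_sum fun q hq => mul_le_mul_of_nonneg_left (h2 q hq) (by norm_num)
  have h11 : II N ε n * (1 - 1 / 2 * ∑ q ∈ pr N (1 / 4) (667 / 1000), (if q ∣ n then 1 else 0)) =
      II N ε n - ∑ q ∈ pr N (1 / 4) (667 / 1000), 1 / 2 * (II N ε n * (if q ∣ n then 1 else 0)) := by
    rw [mul_sub, mul_one, ← Finset.mul_sum, ← Finset.mul_sum]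
    ring
  rw [h11]
  linarith

end Pool.Agent.Y261.CH
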