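import Pool.Agent.Y843.CH.Stm
import Pool.Agent.Y261.CH.Core0

/-!
Project CH (helper843), task CORE: the two sieve bounds of Chen's theorem.
-/

set_option autoImplicit false

namespace Pool.Agent.Y261.CH

open Finset Filter Pool.Agent.W23.DC Pool.Agent.Y660.RP Pool.Agent.Y843.CH

theorem arith_lowC {x ε η A0 η₂ L374 LI Gs Gt SR J LN S1 S2 : ℝ} (hx : 0 ≤ x) (hε : 0 < ε)
    (hη : 0 < η) (hA0 : 0 < A0) (hη₂ : A0 * η₂ ≤ η / 4) (hGt : Gt ≤ LI + η₂)
    (hGs2 : Gs ≤ 2) (hSR : 0 ≤ SR) (hJ : 0 ≤ J) (hJ3 : 2 * (J + 2) ≤ LN)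
    (h1 : x * (ε * A0 * L374) - x * (ε * (η / 16)) - x * (ε * (η / 16)) -
      (J + 2) * SR ≤ S1)
    (h2 : S2 ≤ 1 / 2 * (x * (ε * A0) * Gt) + x * (ε * (η / 16)) * Gs + 1 / 2 * ((J + 2) * SR)) :
    ε * x * (A0 * (L374 - 1 / 2 * LI) - η) - LN * SR ≤ S1 - S2 := by
  have hlogN : (3 / 2) * ((J + 2) * SR) ≤ LN * SR := by
    have h1 : (3 / 2) * (J + 2) ≤ LN := by linarith
    calc (3 / 2) * ((J + 2) * SR) = ((3 / 2) * (J + 2)) * SR := by ring
      _ ≤ _ := by gcongr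
  have hxε : 0 ≤ x * ε := by positivity
  have g1 : x * (ε * A0) * Gt ≤ x * ε * (A0 * LI + η / 4) := by
    have h3 : A0 * Gt ≤ A0 * LI + η / 4 := by
      have : A0 * Gt ≤ A0 * (LI + η₂) := by gcongr
      linarith
    calc x * (ε * A0) * Gt = x * ε * (A0 * Gt) := by ring
      _ ≤ _ := mul_le_mul_of_nonneg_left h3 hxε
  have g2 : x * (ε * (η / 16)) * Gs ≤ x * (ε * (η / 16)) * 2 := by
    have : 0 ≤ x * (ε * (η / 16)) := by positivity
    gcongr
  have g3 : 0 ≤ x * ε * η := by positivity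
  have g4 : ε * x * (A0 * (L374 - 1 / 2 * LI) - η) =
      x * (ε * A0 * L374) - 1 / 2 * (x * ε * (A0 * LI)) - x * ε * η := by ring
  rw [g4]
  have g7 : x * (ε * (η / 16)) = x * ε * η * (1 / 16) := by ring
  rw [g7] at h1 g2
  have g8 : x * ε * (A0 * LI + η / 4) = x * ε * (A0 * LI) + x * ε * η * (1 / 4) := by ring
  rw [g8] at g1
  rw [g7] at h2
  linarith

open Classical in
/-- **CORE** -/
theorem core : St_CORE := by
  intro κ hκ
  obtain ⟨A0, F, f, hS⟩ := Pool.Agent.W366.DC.SFX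
  obtain ⟨C0, hC1, hfund⟩ := fundK κ
  have hA0 := hS.pos
  refine ⟨A0, max C0 (κ + 2), hA0, ?_⟩
  intro z hz' η hη
  have hz : C0 ≤ z := (le_max_left _ _).trans hz'
  have hzκ : κ + 2 ≤ z := (le_max_right _ _).trans hz'
  obtain ⟨b, hb, hb2⟩ := exb' C0 hC1 η hη
  have hb1 : 1 ≤ b := hC1.trans hb
  have hC0r : (1 : ℝ) ≤ C0 := by exact_mod_cast hC1
  have hbr : (1 : ℝ) ≤ b := by exact_mod_cast hb1
  have hCb : (1 : ℝ) ≤ C0 * b := by nlinarith
  obtain ⟨ε, hεd⟩ : ∃ ε : ℝ, ε = 1 / (2000 * C0 * b) := ⟨_, rfl⟩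
  rw [← hεd] at hb2
  have hε : 0 < ε := by rw [hεd]; positivity
  have hε2000 : ε ≤ 1 / 2000 := by
    rw [hεd]
    apply one_div_le_one_div_of_le (by norm_num)
    nlinarith
  have hlev : 2 * ε * ((C0 * b : ℕ) : ℝ) ≤ 1 / 1000 := by
    rw [hεd]
    push_cast
    have : 2 * (1 / (2000 * (C0 : ℝ) * b)) * (C0 * b) = 1 / 1000 := by
      field_simp
      norm_num
    rw [this]
  obtain ⟨β, hβd⟩ : ∃ β : ℝ, β = (1 / 2 : ℝ) ^ b := ⟨_, rfl⟩
  have hβ0 : 0 ≤ β := by rw [hβd]; positivity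
  have hβε : β * (1 / ε) ≤ ε * (η / 16) := by
    rw [mul_one_div, div_le_iff₀ hε, hβd]
    calc (1 / 2 : ℝ) ^ b ≤ ε ^ 2 * (η / 16) := hb2
      _ = ε * (η / 16) * ε := by ring
  refine ⟨ε, hε, by linarith, ?_⟩
  obtain ⟨ηM, hηM0, HM⟩ := Pool.Agent.W505.DC.MT Pool.Agent.W505.DC.MI A0 F f hS ε (ε * (η / 16))
    ⌈1 / ε⌉₊ hε (by linarith) (by positivity)
  obtain ⟨N₁, hN₁⟩ := mergh (1 / 4) ε (min ηM 1) (by norm_num) hε (lt_min hηM0 one_pos)
  obtain ⟨N₅, hN₅⟩ := mergh (7 / 20) ε (min ηM 1) (by norm_num) hε (lt_min hηM0 one_pos)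
  obtain ⟨η₂, hη₂d⟩ : ∃ η₂ : ℝ, η₂ = η / (4 * A0) := ⟨_, rfl⟩
  have hη₂0 : 0 < η₂ := by
    rw [hη₂d]
    positivity
  have hη₂1 : A0 * η₂ ≤ η / 4 := by
    rw [hη₂d]
    apply le_of_eq
    field_simp
  obtain ⟨N₂, hN₂⟩ := part' η₂ hη₂0
  obtain ⟨N₆, hN₆⟩ := middle' 1 one_pos
  obtain ⟨N₃, hN₃⟩ := exJ' ε hε (by linarith) (C0 * b) hlev
  obtain ⟨N₄, hN₄⟩ := ev_rpow ε hε z
  refine ⟨N₁ + N₂ + N₃ + N₄ + N₅ + N₆ + 2, by omega, ?_⟩
  intro N hN
  have hN2 : 2 ≤ N := by omega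
  have hzN := hN₄ N (by omega)
  refine ⟨hzN, ?_⟩
  intro ι Ω v g A h hA hh0 hhN hD
  have hNr : (1 : ℝ) < N := by exact_mod_cast (by omega : 1 < N)
  obtain ⟨J, hJ1, hJ2, hJ3⟩ := hN₃ N (by omega)
  have hMerA := hN₁ N (by omega) g h hh0 hhN hD.2
  have hMerB := hN₅ N (by omega) g h hh0 hhN hD.2
  -- nonnegativity
  have hgP : ∀ w, ∀ p ∈ pr N ε w, 0 ≤ g p := by
    intro w p hp
    have h1 := (le_tt_iff hN2 (mem_pr.1 hp).2.1 _).1 (mem_pr.1 hp).2.2.1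
    have h2 : z < p := by
      have := lt_of_lt_of_le hzN h1
      exact_mod_cast this
    exact (hD.1 p (mem_pr.1 hp).2.1 h2).1
  have hgQ1 : ∀ q ∈ pr N (1 / 4) (667 / 1000), 0 ≤ g q ∧ g q ≤ 1 / ((q : ℝ) - 1) := by
    intro q hq
    have h1 := (le_tt_iff hN2 (mem_pr.1 hq).2.1 _).1 (mem_pr.1 hq).2.2.1
    have h2 : (N : ℝ) ^ ε ≤ (N : ℝ) ^ (1 / 4 : ℝ) :=
      Real.rpow_le_rpow_of_exponent_le hNr.le (by linarith)
    have h3 := hD.2 q (mem_pr.1 hq).2.1 (h2.trans h1)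
    have h4 : (2 : ℝ) ≤ q := by exact_mod_cast (mem_pr.1 hq).2.1.two_le
    have h5 : 0 < 1 / ((q : ℝ) - 1) := by
      have : 0 < (q : ℝ) - 1 := by linarith
      positivity
    rw [h3]
    split_ifs
    · exact ⟨le_rfl, h5.le⟩
    · exact ⟨h5.le, le_rfl⟩
  have hg1 : ∀ p ∈ P1 N z ε, 0 ≤ g p ∧ g p ≤ κ / ((p : ℝ) - 1) := fun p hp =>
    ⟨(hD.1 p (mem_P1.1 hp).2.1 (mem_P1.1 hp).1.1).1, (hD.1 p (mem_P1.1 hp).2.1 (mem_P1.1 hp).1.1).2⟩
  have hV0 : 0 ≤ ∏ p ∈ P1 N z ε, (1 - g p) := by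
    apply Finset.prod_nonneg
    intro p hp
    have h1 := (hg1 p hp).2
    have h2 : (κ : ℝ) + 2 < p := by
      have h3 := (mem_P1.1 hp).1.1
      exact_mod_cast (by omega : κ + 2 < p)
    have h3 : κ / ((p : ℝ) - 1) ≤ 1 := by
      have h4 : (0 : ℝ) ≤ κ := Nat.cast_nonneg κ
      rw [div_le_one (by linarith)]
      linarith
    linarith
  set V := ∏ p ∈ P1 N z ε, (1 - g p) with hVd
  set x := A * V with hxd
  have hx : 0 ≤ x := mul_nonneg hA hV0
  set Ω1 := Ω.filter (fun i => ∀ p ∈ P1 N z ε, ¬ p ∣ v i) with hΩ1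
  set K := ⌈1 / ε⌉₊ with hK
  have hKε : 1 ≤ (K + 2) * ε := by
    have h1 : 1 / ε ≤ K := Nat.le_ceil _
    have h2 : 1 / ε * ε = 1 := by field_simp
    nlinarith
  have HM' : ∀ w, ε ≤ w → w ≤ 7 / 20 → Mer (pr N ε w) (tt N) g ε w (min ηM 1) →
      ∀ τ, w ≤ τ → τ ≤ 1 → MM (pr N ε w) (tt N) g K true τ w ≤ ε / w * F (τ / w) + ε * (η / 16) ∧
      (2 * w ≤ τ → ε / w * f (τ / w) - ε * (η / 16) ≤ MM (pr N ε w) (tt N) g K false τ w) := by
    intro w hw1 hw2 hMer τ hτ1 hτ2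
    exact HM (pr N ε w) (tt N) g w (by linarith) (hgP w) (fun p hp => (mem_pr.1 hp).2.2.1)
      (fun a b ha hab hb => (hMer a b ha hab hb).trans (min_le_left _ _)) K le_rfl τ w
      (hτ2.trans hKε) hw1 le_rfl hτ1 hτ2
  set TT := (P1 N z ε).powerset.filter
    (fun T : Finset ℕ => ∏ p ∈ T, p ≤ (2 ^ 2 ^ J) ^ (C0 * b)) with hTTd
  have hTTsub : ∀ T ∈ TT, T ⊆ P1 N z ε := fun T hT => mem_powerset.1 (mem_filter.1 hT).1
  have hTTle : ∀ T ∈ TT, ((∏ p ∈ T, p : ℕ) : ℝ) ≤ (N : ℝ) ^ (1 / 1000 : ℝ) := by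
    intro T hT
    refine le_trans ?_ hJ2
    exact_mod_cast (mem_filter.1 hT).2
  -- the preliminary sieve
  have hr : ∀ e, e ≠ 0 → (∀ p ∈ e.primeFactors, ε ≤ tt N p) → 0 ≤ gp g e →
      |rem Ω1 v g x e| ≤ β * (x * gp g e) + ((J : ℝ) + 2) * ∑ T ∈ TT, Rr Ω v g A (e * ∏ p ∈ T, p) := by
    intro e he hep hge
    have h1 := hfund b J z (P1 N z ε) g hb hz
      (fun p hp => ⟨(mem_P1.1 hp).2.1, (mem_P1.1 hp).1.1, hJ1 p (mem_P1.1 hp).2.2⟩) hg1 ι Ω v A e hA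
      hge (by
        intro p hp hpe
        have h2 := hep p (Nat.mem_primeFactors.2 ⟨(mem_P1.1 hp).2.1, hpe, he⟩)
        have h3 := (tt_lt_iff hN2 (mem_P1.1 hp).2.1 ε).2 (mem_P1.1 hp).2.2
        linarith)
    have e1 : rem Ω1 v g x e = ((Ω1.filter (fun i => e ∣ v i)).card : ℝ) - A * gp g e * V := by
      unfold rem
      rw [hxd]
      ring
    have e2 : β * (x * gp g e) = (1 / 2 : ℝ) ^ b * (A * gp g e * V) := by
      rw [hβd, hxd]
      ring
    rw [e1, e2]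
    exact h1
  have hJ20 : (0 : ℝ) ≤ (J : ℝ) + 2 := by positivity
  have hxβ : x * (β * (1 / ε)) ≤ x * (ε * (η / 16)) := mul_le_mul_of_nonneg_left hβε hx
  have hEB : ∀ w, ε ≤ w → w ≤ 7 / 20 → Mer (pr N ε w) (tt N) g ε w (min ηM 1) →
      ∀ (bb : Bool) (τ : ℝ) (d : ℕ), d ≠ 0 → (∀ p ∈ d.primeFactors, w ≤ tt N p) → 0 ≤ gp g d →
      0 ≤ τ → (bb = false → 2 * w ≤ τ) →
      |LL (pr N ε w) (tt N) (rem Ω1 v g x) K bb τ w d| ≤ x * (ε * (η / 16)) * gp g d +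
        ((J : ℝ) + 2) * ∑ e ∈ EE (pr N ε w) (tt N) τ w, ∑ T ∈ TT,
          Rr Ω v g A (d * e * ∏ p ∈ T, p) := by
    intro w hw1 hw2 hMer bb τ d h1 h2 h3 h4 h5
    refine (err_bound hN2 hw1 Ω1 v g (hgP w) x β ((J : ℝ) + 2) TT (Rr Ω v g A) hx hβ0
      hr K bb τ w d h1 h2 h3 h4 h5).trans ?_
    refine add_le_add ?_ le_rfl
    have hprod := prod_le' hε hw1 hw2 (min_le_right ηM 1) g (hgP w) hMer
    calc β * (x * (gp g d * ∏ p ∈ pr N ε w, (1 + g p))) ≤ β * (x * (gp g d * (1 / ε))) := by gcongr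
      _ = x * (β * (1 / ε)) * gp g d := by ring
      _ ≤ _ := mul_le_mul_of_nonneg_right hxβ h3
  have hone : ∀ w, ∀ p ∈ (1 : ℕ).primeFactors, w ≤ tt N p := by simp
  have hSR0 : 0 ≤ ∑ m ∈ Lv' z ((N : ℝ) ^ (999 / 1000 : ℝ)), Rr Ω v g A m :=
    Finset.sum_nonneg fun m _ => Rr_nonneg Ω v g A m
  set SR := ∑ m ∈ Lv' z ((N : ℝ) ^ (999 / 1000 : ℝ)), Rr Ω v g A m with hSRd
  -- the moduli
  have hm1 : ∀ w, ε ≤ w →
      ∑ e ∈ EE (pr N ε w) (tt N) (998 / 1000) w, ∑ T ∈ TT, Rr Ω v g A (1 * e * ∏ p ∈ T, p) ≤ SR := by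
    intro w hw
    have h1 := moduli hN2 hw hzN {1} (fun _ => 998 / 1000) (fun _ => w) TT
      (D := (N : ℝ) ^ (999 / 1000 : ℝ)) (by
        intro d hd
        rw [mem_singleton] at hd
        subst hd
        exact ⟨one_ne_zero, squarefree_one, hone w⟩) hTTsub (by
        intro d hd e he T hT
        rw [mem_singleton] at hd
        subst hd
        have e0 : (999 / 1000 : ℝ) = 998 / 1000 + 1 / 1000 := by norm_num
        rw [one_mul, e0, Real.rpow_add (by linarith)]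
        push_cast
        have h2 := EE_le hN2 (by norm_num) he
        have h3 := hTTle T hT
        push_cast at h3
        gcongr) (Rr Ω v g A) (Rr_nonneg Ω v g A)
    rw [sum_singleton] at h1
    exact h1
  have hεA : ε ≤ 1 / 4 := by linarith
  have hεB : ε ≤ 7 / 20 := by linarith
  constructor
  · -- lower bound
    set P := pr N ε (1 / 4) with hPd
    set Q := pr N (1 / 4) (667 / 1000) with hQd
    have htq : ∀ q ∈ Q, 331 / 1000 < 998 / 1000 - tt N q ∧ 998 / 1000 - tt N q ≤ 748 / 1000 := by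
      intro q hq
      have h1 := (mem_pr.1 hq).2.2
      constructor <;> linarith [h1.1, h1.2]
    have hQpf : ∀ q ∈ Q, ∀ p ∈ q.primeFactors, 1 / 4 ≤ tt N p := by
      intro q hq p hp
      have hqp := (mem_pr.1 hq).2.1
      rw [hqp.primeFactors, mem_singleton] at hp
      rw [hp]
      exact (mem_pr.1 hq).2.2.1
    have hmQ : ∑ q ∈ Q, ∑ e ∈ EE P (tt N) (998 / 1000 - tt N q) (1 / 4), ∑ T ∈ TT,
        Rr Ω v g A (q * e * ∏ p ∈ T, p) ≤ SR := by
      refine moduli hN2 hεA hzN Q (fun q => 998 / 1000 - tt N q) (fun _ => 1 / 4) TT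
        (D := (N : ℝ) ^ (999 / 1000 : ℝ)) ?_ hTTsub ?_ (Rr Ω v g A) (Rr_nonneg Ω v g A)
      · intro q hq
        have hqp := (mem_pr.1 hq).2.1
        exact ⟨hqp.ne_zero, hqp.prime.squarefree, hQpf q hq⟩
      · intro q hq e he T hT
        have hqp := (mem_pr.1 hq).2.1
        have h2 := EE_le hN2 (by linarith [(htq q hq).1]) he
        have h3 := hTTle T hT
        have h4 : (N : ℝ) ^ (999 / 1000 : ℝ) =
            (N : ℝ) ^ (tt N q) * (N : ℝ) ^ (998 / 1000 - tt N q) * (N : ℝ) ^ (1 / 1000 : ℝ) := by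
          rw [← Real.rpow_add (by linarith), ← Real.rpow_add (by linarith)]
          congr 1
          ring
        rw [h4, rpow_tt hN2 hqp]
        push_cast
        push_cast at h3
        gcongr
    have hgpq : ∀ q ∈ Q, gp g q = g q := by
      intro q hq
      unfold gp
      rw [(mem_pr.1 hq).2.1.primeFactors, prod_singleton]
    set Gs := ∑ q ∈ Q, g q with hGsd
    have hGs2 : Gs ≤ 2 := by
      have h1 : Gs ≤ ∑ q ∈ Q, 1 / ((q : ℝ) - 1) := Finset.sum_le_sum fun q hq => (hgQ1 q hq).2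
      have h2 := hN₆ N (by omega)
      have h3 := log_667
      linarith
    set Gt := ∑ q ∈ Q, g q * (1 / (998 / 1000 - tt N q)) with hGtd
    have hGt2 : Gt ≤ 1000 / 998 * Real.log (667 * 748 / (331 * 250)) + η₂ := by
      refine le_trans ?_ (hN₂ N (by omega))
      refine Finset.sum_le_sum fun q hq => ?_
      have h1 := (htq q hq).1
      have h2 : 0 ≤ 1 / (998 / 1000 - tt N q) := by
        have : 0 < 998 / 1000 - tt N q := by linarith
        positivity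
      exact mul_le_mul_of_nonneg_right (hgQ1 q hq).2 h2
    have hsum : ∑ i ∈ Ω1, (LL P (tt N) (ind (v i)) K false (998 / 1000) (1 / 4) 1 -
        ∑ q ∈ Q, 1 / 2 * LL P (tt N) (ind (v i)) K true (998 / 1000 - tt N q) (1 / 4) q) ≤
        ∑ i ∈ Ω1, II N ε (v i) * (1 - 1 / 2 * ∑ q ∈ Q, (if q ∣ v i then 1 else 0)) :=
      Finset.sum_le_sum fun i _ => II_ge' N hN2 ε K (v i)
    refine le_trans ?_ hsum
    rw [Finset.sum_sub_distrib, Finset.sum_comm]
    -- the first term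
    have e1 := LL_main hN2 (ε := ε) (w := 1 / 4) Ω1 v g x K false (998 / 1000) (1 / 4) 1
      (fun p hp _ h => (mem_pr.1 hp).2.1.one_lt.ne' (Nat.dvd_one.1 h))
    have e2 := (HM' (1 / 4) hεA (by norm_num) hMerA (998 / 1000) (by norm_num) (by norm_num)).2
      (by norm_num)
    have e3 : ε / (1 / 4) * f (998 / 1000 / (1 / 4)) =
        ε * A0 * (1000 / 998 * Real.log (374 / 125)) := by
      rw [hS.f4 _ (by norm_num) (by norm_num)]
      have : (998 / 1000 / (1 / 4) - 1 : ℝ) = 374 / 125 := by norm_num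
      rw [this]
      ring
    rw [e3] at e2
    have e4 := hEB (1 / 4) hεA (by norm_num) hMerA false (998 / 1000) 1 one_ne_zero (hone _)
      (by rw [gp_one]; norm_num) (by norm_num) (fun _ => by norm_num)
    rw [gp_one, mul_one] at e4
    have e5 := hm1 (1 / 4) hεA
    have hfirst : x * (ε * A0 * (1000 / 998 * Real.log (374 / 125))) - x * (ε * (η / 16)) -
        x * (ε * (η / 16)) - ((J : ℝ) + 2) * SR ≤
        ∑ i ∈ Ω1, LL P (tt N) (ind (v i)) K false (998 / 1000) (1 / 4) 1 := by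
      rw [e1, gp_one, one_mul]
      have h1 : x * (ε * A0 * (1000 / 998 * Real.log (374 / 125)) - ε * (η / 16)) ≤
          x * MM P (tt N) g K false (998 / 1000) (1 / 4) := mul_le_mul_of_nonneg_left e2 hx
      have h2 := (abs_le.1 e4).1
      have h4 : ((J : ℝ) + 2) * ∑ e ∈ EE P (tt N) (998 / 1000) (1 / 4), ∑ T ∈ TT,
          Rr Ω v g A (1 * e * ∏ p ∈ T, p) ≤ ((J : ℝ) + 2) * SR :=
        mul_le_mul_of_nonneg_left e5 hJ20
      rw [mul_sub] at h1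
      linarith only [h1, h2, h4]
    -- the terms with `q`
    have hq1 : ∀ q ∈ Q, MM P (tt N) g K true (998 / 1000 - tt N q) (1 / 4) ≤
        ε * A0 * (1 / (998 / 1000 - tt N q)) + ε * (η / 16) := by
      intro q hq
      obtain ⟨h0, h1⟩ := htq q hq
      have h5 := (HM' (1 / 4) hεA (by norm_num) hMerA (998 / 1000 - tt N q) (by linarith)
        (by linarith)).1
      have h6 : 0 < 998 / 1000 - tt N q := by linarith
      have h7 : ε / (1 / 4) * F ((998 / 1000 - tt N q) / (1 / 4)) =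
          ε * A0 * (1 / (998 / 1000 - tt N q)) := by
        rw [hS.F3 _ (by linarith) (by linarith)]
        field_simp
      rw [h7] at h5
      exact h5
    have hq2 : ∀ q ∈ Q, 1 / 2 * ∑ i ∈ Ω1, LL P (tt N) (ind (v i)) K true (998 / 1000 - tt N q)
        (1 / 4) q ≤ 1 / 2 * (x * (ε * A0) * (g q * (1 / (998 / 1000 - tt N q)))) +
          x * (ε * (η / 16)) * g q +
          1 / 2 * (((J : ℝ) + 2) * ∑ e ∈ EE P (tt N) (998 / 1000 - tt N q) (1 / 4), ∑ T ∈ TT,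
            Rr Ω v g A (q * e * ∏ p ∈ T, p)) := by
      intro q hq
      obtain ⟨h0, h1⟩ := htq q hq
      have hqp := (mem_pr.1 hq).2.1
      have hgq := (hgQ1 q hq).1
      have f1 := LL_main hN2 (ε := ε) (w := 1 / 4) Ω1 v g x K true (998 / 1000 - tt N q) (1 / 4) q
        (by
        intro p hp _ h
        have h4 := (Nat.prime_dvd_prime_iff_eq (mem_pr.1 hp).2.1 hqp).1 h
        have h5 := (mem_pr.1 hp).2.2.2
        have h6 := (mem_pr.1 hq).2.2.1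
        rw [h4] at h5
        linarith)
      rw [hgpq q hq] at f1
      have f2 := hEB (1 / 4) hεA (by norm_num) hMerA true (998 / 1000 - tt N q) q hqp.ne_zero
        (hQpf q hq) (by rw [hgpq q hq]; exact hgq) (by linarith) (fun h => by simp at h)
      rw [hgpq q hq] at f2
      have f3 := (abs_le.1 f2).2
      have f4 := hq1 q hq
      have f5 : x * (g q * MM P (tt N) g K true (998 / 1000 - tt N q) (1 / 4)) ≤
          x * (g q * (ε * A0 * (1 / (998 / 1000 - tt N q)) + ε * (η / 16))) := by gcongr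
      rw [f1]
      have f6 : x * (g q * (ε * A0 * (1 / (998 / 1000 - tt N q)) + ε * (η / 16))) =
          x * (ε * A0) * (g q * (1 / (998 / 1000 - tt N q))) + x * (ε * (η / 16)) * g q := by ring
      rw [f6] at f5
      linarith only [f3, f5]
    have hQsum : ∑ q ∈ Q, ∑ i ∈ Ω1, 1 / 2 *
        LL P (tt N) (ind (v i)) K true (998 / 1000 - tt N q) (1 / 4) q ≤
        1 / 2 * (x * (ε * A0) * Gt) + x * (ε * (η / 16)) * Gs + 1 / 2 * (((J : ℝ) + 2) * SR) := by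
      have h1 : ∑ q ∈ Q, ∑ i ∈ Ω1, 1 / 2 *
          LL P (tt N) (ind (v i)) K true (998 / 1000 - tt N q) (1 / 4) q ≤
          ∑ q ∈ Q, (1 / 2 * (x * (ε * A0) * (g q * (1 / (998 / 1000 - tt N q)))) +
          x * (ε * (η / 16)) * g q +
          1 / 2 * (((J : ℝ) + 2) * ∑ e ∈ EE P (tt N) (998 / 1000 - tt N q) (1 / 4), ∑ T ∈ TT,
            Rr Ω v g A (q * e * ∏ p ∈ T, p))) := by
        apply Finset.sum_le_sum
        intro q hq
        rw [← Finset.mul_sum]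
        exact hq2 q hq
      refine h1.trans ?_
      have h2 : ((J : ℝ) + 2) * ∑ q ∈ Q, ∑ e ∈ EE P (tt N) (998 / 1000 - tt N q) (1 / 4),
          ∑ T ∈ TT, Rr Ω v g A (q * e * ∏ p ∈ T, p) ≤ ((J : ℝ) + 2) * SR :=
        mul_le_mul_of_nonneg_left hmQ hJ20
      simp only [Finset.sum_add_distrib, ← Finset.mul_sum]
      rw [← hGsd, ← hGtd]
      linarith only [h2]
    have key := arith_lowC (L374 := 1000 / 998 * Real.log (374 / 125)) hx hε hη hA0 hη₂1 hGt2 hGs2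
      hSR0 (Nat.cast_nonneg J) hJ3 hfirst hQsum
    refine le_trans (le_of_eq ?_) key
    rw [LBc]
    ring
  · -- upper bound
    have hcard : ((Ω.filter (fun i => (∀ p ∈ P1 N z ε, ¬ p ∣ v i) ∧
        ∀ p ∈ pr N ε (7 / 20), ¬ p ∣ v i)).card : ℝ) =
        ∑ i ∈ Ω1, if ∀ p ∈ pr N ε (7 / 20), ¬ p ∣ v i then (1 : ℝ) else 0 := by
      rw [Finset.card_eq_sum_ones, Nat.cast_sum, ← Finset.filter_filter, ← hΩ1, Finset.sum_filter]
      refine Finset.sum_congr rfl fun i _ => ?_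
      by_cases hc : ∀ p ∈ pr N ε (7 / 20), ¬ p ∣ v i
      · rw [if_pos hc, if_pos hc, Nat.cast_one]
      · rw [if_neg hc, if_neg hc]
    rw [hcard]
    have hsum : ∑ i ∈ Ω1, (if ∀ p ∈ pr N ε (7 / 20), ¬ p ∣ v i then (1 : ℝ) else 0) ≤
        ∑ i ∈ Ω1, LL (pr N ε (7 / 20)) (tt N) (ind (v i)) K true (998 / 1000) (7 / 20) 1 :=
      Finset.sum_le_sum fun i _ => by
        have h0 := ind_le N hN2 ε (7 / 20) K (v i) (998 / 1000)
        by_cases hc : ∀ p ∈ pr N ε (7 / 20), ¬ p ∣ v i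
        · rw [if_pos hc] at h0 ⊢
          exact h0
        · rw [if_neg hc] at h0 ⊢
          exact h0
    refine hsum.trans ?_
    have e1 := LL_main hN2 (ε := ε) (w := 7 / 20) Ω1 v g x K true (998 / 1000) (7 / 20) 1
      (fun p hp _ h => (mem_pr.1 hp).2.1.one_lt.ne' (Nat.dvd_one.1 h))
    have e2 := (HM' (7 / 20) hεB le_rfl hMerB (998 / 1000) (by norm_num) (by norm_num)).1
    have e3 : ε / (7 / 20) * F (998 / 1000 / (7 / 20)) = ε * (A0 / (998 / 1000)) := by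
      rw [hS.F3 _ (by norm_num) (by norm_num)]
      ring
    rw [e3] at e2
    have e4 := hEB (7 / 20) hεB le_rfl hMerB true (998 / 1000) 1 one_ne_zero (hone _)
      (by rw [gp_one]; norm_num) (by norm_num) (fun h => by simp at h)
    rw [gp_one, mul_one] at e4
    have e5 := hm1 (7 / 20) hεB
    rw [e1, gp_one, one_mul]
    have h2 := (abs_le.1 e4).2
    have h5 : 0 ≤ ∑ e ∈ EE (pr N ε (7 / 20)) (tt N) (998 / 1000) (7 / 20), ∑ T ∈ TT,
        Rr Ω v g A (1 * e * ∏ p ∈ T, p) :=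
      Finset.sum_nonneg fun e _ => Finset.sum_nonneg fun T _ => Rr_nonneg Ω v g A _
    have key := arith_up hε hη hx e2 (le_refl (x * (ε * (η / 16)))) (Nat.cast_nonneg J) hJ3 h5 e5 h2
    refine key.trans (le_of_eq ?_)
    ring

end Pool.Agent.Y261.CH
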